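import Mathlib

/-!
Module Defs.  Partial injections from `Fin k` to `V` as finsets of pairs.
-/

set_option autoImplicit false
set_option linter.unusedSectionVars false

open Finset

namespace Pool.Agent.H9.SI

variable {V W : Type} [DecidableEq V] [DecidableEq W] {k : ℕ}

/-- the vertices of `f` -/
def vim (f : Finset (Fin k × V)) : Finset V := f.image Prod.snd

/-- `f` is a partial injection from indices to vertices -/
def Inj (f : Finset (Fin k × V)) : Prop := ∀ x ∈ f, ∀ y ∈ f, x ≠ y → x.1 ≠ y.1 ∧ x.2 ≠ y.2

/-- relabelling the vertices -/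
def mv (β : V → W) (f : Finset (Fin k × V)) : Finset (Fin k × W) := f.image (Prod.map id β)

open Classical in
/-- the probability that a random bijection from `Fin k` to a set with `k` elements extends `f` -/
noncomputable def yw (f : Finset (Fin k × V)) : ℝ :=
  if Inj f then ((k - f.card).factorial : ℝ) / (k.factorial : ℝ) else 0

/-- the lift of `E` to the variables `(i, v)` -/
noncomputable def Ey (E : Finset V → ℝ) (f : Finset (Fin k × V)) : ℝ := yw f * E (vim f)

@[simp] theorem mem_vim (f : Finset (Fin k × V)) (v : V) : v ∈ vim f ↔ ∃ i, (i, v) ∈ f := by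
  simp [vim]

theorem vim_union (f g : Finset (Fin k × V)) : vim (f ∪ g) = vim f ∪ vim g := image_union _ _

theorem mv_union (β : V → W) (f g : Finset (Fin k × V)) : mv β (f ∪ g) = mv β f ∪ mv β g := image_union _ _

theorem card_vim_le (f : Finset (Fin k × V)) : (vim f).card ≤ f.card := card_image_le

theorem Inj.card_vim {f : Finset (Fin k × V)} (h : Inj f) : (vim f).card = f.card := by
  refine card_image_of_injOn fun x hx y hy hxy => ?_
  by_contra hne
  exact (h x hx y hy hne).2 hxy

theorem Inj.card_le {f : Finset (Fin k × V)} (h : Inj f) : f.card ≤ k := by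
  have h1 : (f.image Prod.fst).card = f.card := by
    refine card_image_of_injOn fun x hx y hy hxy => ?_
    by_contra hne
    exact (h x hx y hy hne).1 hxy
  rw [← h1]
  exact (card_le_univ _).trans (by simp)

theorem Inj.mono {f g : Finset (Fin k × V)} (h : Inj g) (hfg : f ⊆ g) : Inj f :=
  fun x hx y hy => h x (hfg hx) y (hfg hy)

end Pool.Agent.H9.SI
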