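import Mathlib

/-!
Module Epe.  Extending partial bijections to permutations.
-/

set_option autoImplicit false
set_option linter.unusedSectionVars false

open Finset

namespace Pool.Agent.H9.SI

theorem Epe_ext {α : Type} [Finite α] (S : Set α) (g : α → α) (hg : Set.InjOn g S) :
    ∃ τ : Equiv.Perm α, ∀ v ∈ S, τ v = g v := by
  classical
  have _ := Fintype.ofFinite α
  refine ⟨Equiv.extendSubtype (p := fun x => x ∈ S) (q := fun x => x ∈ g '' S)
    (Set.BijOn.equiv g hg.bijOn_image), fun v hv => ?_⟩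
  rw [Equiv.extendSubtype_apply_of_mem _ _ hv]
  rfl

theorem Epe_main {V : Type} {k : ℕ} (D : Finset V) (β γ : V → Fin k) (hβ : Set.InjOn β (D : Set V))
    (hγ : Set.InjOn γ (D : Set V)) : ∃ τ : Equiv.Perm (Fin k), ∀ v ∈ D, τ (β v) = γ v := by
  classical
  rcases D.eq_empty_or_nonempty with rfl | ⟨v₀, hv₀⟩
  · exact ⟨Equiv.refl _, fun v hv => absurd hv (Finset.notMem_empty v)⟩
  have _ : Nonempty V := ⟨v₀⟩
  obtain ⟨τ, hτ⟩ := Epe_ext (β '' (D : Set V)) (fun x => γ (Function.invFunOn β (D : Set V) x)) (by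
    rintro x ⟨v, hv, rfl⟩ y ⟨w, hw, rfl⟩ h
    have h1 := hβ.leftInvOn_invFunOn hv
    have h2 := hβ.leftInvOn_invFunOn hw
    simp only [h1, h2] at h
    rw [hγ hv hw h])
  refine ⟨τ, fun v hv => ?_⟩
  have hv' : v ∈ (D : Set V) := hv
  rw [hτ _ ⟨v, hv', rfl⟩]
  exact congrArg γ (hβ.leftInvOn_invFunOn hv')

theorem Epe_set {V : Type} [Fintype V] [DecidableEq V] (A B B' : Finset V) (hB : Disjoint A B) (hB' : Disjoint A B')
    (hc : B.card = B'.card) : ∃ τ : Equiv.Perm V, (∀ v ∈ A, τ v = v) ∧ B.image τ = B' := by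
  let e := Finset.equivOfCardEq hc
  let g : V → V := fun x => if h : x ∈ B then (e ⟨x, h⟩ : V) else x
  have hgB : ∀ x (h : x ∈ B), g x = (e ⟨x, h⟩ : V) := fun x h => dif_pos h
  have hgA : ∀ x ∈ A, g x = x := fun x h => dif_neg (Finset.disjoint_left.1 hB h)
  have hmem : ∀ x ∈ B, g x ∈ B' := by
    intro x h
    rw [hgB x h]
    exact (e ⟨x, h⟩).2
  obtain ⟨τ, hτ⟩ := Epe_ext ((A : Set V) ∪ (B : Set V)) g (by
    rintro x hx y hy h
    rcases hx with hx | hx <;> rcases hy with hy | hy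
    · rwa [hgA x hx, hgA y hy] at h
    · exfalso
      rw [hgA x hx] at h
      exact Finset.disjoint_left.1 hB' hx (h ▸ hmem y hy)
    · exfalso
      rw [hgA y hy] at h
      exact Finset.disjoint_left.1 hB' hy (h ▸ hmem x hx)
    · rw [hgB x hx, hgB y hy] at h
      have h1 := e.injective (Subtype.ext h)
      exact congrArg Subtype.val h1)
  refine ⟨τ, fun v hv => ?_, ?_⟩
  · rw [hτ v (Or.inl hv), hgA v hv]
  · apply Finset.eq_of_subset_of_card_le
    · intro y hy
      obtain ⟨x, hx, rfl⟩ := Finset.mem_image.1 hy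
      rw [hτ x (Or.inr hx)]
      exact hmem x hx
    · rw [Finset.card_image_of_injective _ τ.injective, hc]

end Pool.Agent.H9.SI
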