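import Mathlib

/-!
Module Exs.  Iterating the linear constraint.
Induction on `j`: `(j + 1) ∑_{|B| = j + 1} E (A ∪ B) = ∑_{|B| = j} ∑_{v ∉ A ∪ B} E (insert v (A ∪ B)) = ∑_{|B| = j} (k - |A| - j) E (A ∪ B)` (count the pairs (B', v) with `v ∈ B'`).
-/

set_option autoImplicit false
set_option linter.unusedSectionVars false

open Finset

namespace Pool.Agent.H9.SI

variable {V : Type} [Fintype V] [DecidableEq V]

theorem Exs_count (E : Finset V → ℝ) (A : Finset V) (j : ℕ) :
    ∑ B ∈ powersetCard (j + 1) (univ \ A), ∑ _v ∈ B, E (A ∪ B) =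
      ∑ B ∈ powersetCard j (univ \ A), ∑ v ∈ univ \ (A ∪ B), E (insert v (A ∪ B)) := by
  rw [Finset.sum_sigma', Finset.sum_sigma']
  refine Finset.sum_bij' (fun x _ => (⟨x.1.erase x.2, x.2⟩ : Σ _ : Finset V, V))
    (fun x _ => (⟨insert x.2 x.1, x.2⟩ : Σ _ : Finset V, V)) ?_ ?_ ?_ ?_ ?_
  · rintro ⟨B, v⟩ h
    simp only [mem_sigma, mem_powersetCard] at h ⊢
    obtain ⟨⟨h1, h2⟩, h3⟩ := h
    refine ⟨⟨(erase_subset _ _).trans h1, ?_⟩, ?_⟩
    · rw [card_erase_of_mem h3, h2]; rfl
    · have h4 := h1 h3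
      simp only [mem_sdiff, mem_univ, true_and, mem_union, mem_erase, ne_eq, not_true_eq_false,
        false_and, or_false] at h4 ⊢
      exact h4
  · rintro ⟨B, v⟩ h
    simp only [mem_sigma, mem_powersetCard, mem_sdiff, mem_univ, true_and, mem_union,
      not_or] at h ⊢
    obtain ⟨⟨h1, h2⟩, h3, h4⟩ := h
    refine ⟨⟨?_, ?_⟩, mem_insert_self _ _⟩
    · intro x hx
      rcases mem_insert.1 hx with rfl | hx
      · simp [h3]
      · exact h1 hx
    · rw [card_insert_of_notMem h4, h2]
  · rintro ⟨B, v⟩ h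
    simp only [mem_sigma] at h
    simp [insert_erase h.2]
  · rintro ⟨B, v⟩ h
    simp only [mem_sigma, mem_sdiff, mem_univ, true_and, mem_union, not_or] at h
    simp [erase_insert h.2.2]
  · rintro ⟨B, v⟩ h
    simp only [mem_sigma] at h
    congr 1
    ext x
    by_cases hx : x = v
    · subst hx; simp [h.2]
    · simp [hx]

theorem Exs_main (E : Finset V → ℝ) (k D : ℕ) (hD : D ≤ k)
    (hlin : ∀ S : Finset V, S.card < D → ∑ v ∈ univ \ S, E (insert v S) = ((k : ℝ) - S.card) * E S)
    (A : Finset V) (j : ℕ) (hA : A.card + j ≤ D) :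
    ∑ B ∈ powersetCard j (univ \ A), E (A ∪ B) = ((k - A.card).choose j : ℝ) * E A := by
  induction j with
  | zero => simp
  | succ j ih =>
    have ih' := ih (by omega)
    have h1 : ∑ B ∈ powersetCard (j + 1) (univ \ A), ∑ _v ∈ B, E (A ∪ B) =
        ((j : ℝ) + 1) * ∑ B ∈ powersetCard (j + 1) (univ \ A), E (A ∪ B) := by
      rw [Finset.mul_sum]
      refine Finset.sum_congr rfl fun B hB => ?_
      rw [Finset.sum_const, (mem_powersetCard.1 hB).2, nsmul_eq_mul]
      push_cast
      ring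
    have h2 : ∑ B ∈ powersetCard j (univ \ A), ∑ v ∈ univ \ (A ∪ B), E (insert v (A ∪ B)) =
        ((k : ℝ) - A.card - j) * ∑ B ∈ powersetCard j (univ \ A), E (A ∪ B) := by
      rw [Finset.mul_sum]
      refine Finset.sum_congr rfl fun B hB => ?_
      obtain ⟨h3, h4⟩ := mem_powersetCard.1 hB
      have h5 : Disjoint A B := by
        rw [Finset.disjoint_left]
        intro x hx hxB
        exact (mem_sdiff.1 (h3 hxB)).2 hx
      have h6 : (A ∪ B).card = A.card + j := by
        rw [card_union_of_disjoint h5, h4]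
      rw [hlin (A ∪ B) (by omega), h6]
      push_cast
      ring
    have h3 := Exs_count E A j
    rw [h1, h2, ih'] at h3
    have h4 := Nat.choose_succ_right_eq (k - A.card) j
    have h5 : (((k - A.card).choose (j + 1) : ℕ) : ℝ) * ((j : ℝ) + 1) =
        (((k - A.card).choose j : ℕ) : ℝ) * ((k : ℝ) - A.card - j) := by
      have h6 : ((k - A.card - j : ℕ) : ℝ) = (k : ℝ) - A.card - j := by
        rw [Nat.cast_sub (by omega), Nat.cast_sub (by omega)]
      rw [← h6]
      exact_mod_cast h4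
    have h7 : ((j : ℝ) + 1) ≠ 0 := by positivity
    apply mul_left_cancel₀ h7
    rw [h3]
    linear_combination (-(E A)) * h5

end Pool.Agent.H9.SI
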