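import Pool.Agent.H9.SI.Defs
import Pool.Agent.H9.SI.Exs
import Pool.Agent.H9.SI.Epe

/-!
Module Ivr.   Use only the STATEMENTS of `Exs_main` and `Epe_set`.
Put `Ψ B = ∑ h with vim h \ A = B, Φ h` for `B` disjoint from `A`; `Ψ B = 0` if `s < B.card` (then `s < h.card`), and `Ψ B` depends only on `B.card` (take `τ` from `Epe_set`: `h ↦ mv τ h` is a bijection from the `h` with `vim h \ A = B` to those with `vim h \ A = B'`).
Left side `= ∑ B ⊆ univ \ A, Ψ B * E (A ∪ B) = ∑ j ≤ s, ψ j * (k - |A|).choose j * E A` by `Exs_main` (`|A| + j ≤ D`); the sum on the right side is `∑ B ⊆ K \ A, Ψ B = ∑ j ≤ s, (k - |A|).choose j * ψ j`.  (`vim h ⊆ K ↔ vim h \ A ⊆ K \ A`; `h ⊆ univ ×ˢ K ↔ vim h ⊆ K`; for `j ≤ s` take for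
`ψ j` the value of `Ψ` at some `B ⊆ K \ A` with `B.card = j`, which exists because `|A| + s ≤ D ≤ k = |K|`.)
-/

set_option autoImplicit false
set_option linter.unusedSectionVars false

open Finset

namespace Pool.Agent.H9.SI

variable {V : Type} [Fintype V] [DecidableEq V]

private theorem Ivr_vim_mv {k : ℕ} (β : V → V) (f : Finset (Fin k × V)) :
    vim (mv β f) = (vim f).image β := by
  unfold vim mv
  rw [image_image, image_image]
  rfl

private theorem Ivr_mv_symm {k : ℕ} (τ : Equiv.Perm V) (f : Finset (Fin k × V)) :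
    mv τ.symm (mv τ f) = f := by
  unfold mv
  rw [image_image]
  have h : (Prod.map id τ.symm ∘ Prod.map id τ : Fin k × V → Fin k × V) = id := by
    funext x
    obtain ⟨i, v⟩ := x
    simp only [Function.comp_apply, Prod.map_apply, id_eq, Equiv.symm_apply_apply]
  rw [h, image_id]

private theorem Ivr_mv_symm' {k : ℕ} (τ : Equiv.Perm V) (f : Finset (Fin k × V)) :
    mv τ (mv τ.symm f) = f := by
  have h := Ivr_mv_symm τ.symm f
  rwa [Equiv.symm_symm] at h

private theorem Ivr_sdiff {k : ℕ} (τ : Equiv.Perm V) (A : Finset V) (hτ : ∀ v ∈ A, τ v = v)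
    (f : Finset (Fin k × V)) : vim (mv τ f) \ A = (vim f \ A).image τ := by
  rw [Ivr_vim_mv]
  have h1 : A.image τ = A := by
    ext v
    rw [mem_image]
    constructor
    · rintro ⟨a, ha, rfl⟩
      rw [hτ a ha]
      exact ha
    · intro hv
      exact ⟨v, hv, hτ v hv⟩
  rw [image_sdiff _ _ τ.injective, h1]

private theorem Ivr_inv {k : ℕ} (A : Finset V) (Φ : Finset (Fin k × V) → ℝ)
    (hΦ : ∀ τ : Equiv.Perm V, (∀ v ∈ A, τ v = v) → ∀ h, Φ (mv τ h) = Φ h)
    (B B' : Finset V) (hB : Disjoint A B) (hB' : Disjoint A B') (hc : B.card = B'.card) :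
    ∑ h ∈ (univ : Finset (Finset (Fin k × V))) with vim h \ A = B, Φ h =
      ∑ h ∈ (univ : Finset (Finset (Fin k × V))) with vim h \ A = B', Φ h := by
  obtain ⟨τ, h1, h2⟩ := Epe_set A B B' hB hB' hc
  have h3 : ∀ v ∈ A, τ.symm v = v := by
    intro v hv
    rw [Equiv.symm_apply_eq, h1 v hv]
  have h4 : B'.image τ.symm = B := by
    rw [← h2, image_image]
    have : (τ.symm ∘ τ : V → V) = id := by
      funext x
      simp
    rw [this, image_id]
  refine Finset.sum_bij' (fun h _ => mv τ h) (fun h _ => mv τ.symm h) ?_ ?_ ?_ ?_ ?_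
  · intro h hh
    rw [mem_filter] at hh ⊢
    refine ⟨mem_univ _, ?_⟩
    rw [Ivr_sdiff τ A h1, hh.2, h2]
  · intro h hh
    rw [mem_filter] at hh ⊢
    refine ⟨mem_univ _, ?_⟩
    rw [Ivr_sdiff τ.symm A h3, hh.2, h4]
  · intro h _
    exact Ivr_mv_symm τ h
  · intro h _
    exact Ivr_mv_symm' τ h
  · intro h _
    exact (hΦ τ h1 h).symm

theorem Ivr_main (E : Finset V → ℝ) (k D : ℕ) (hD : D ≤ k)
    (hlin : ∀ S : Finset V, S.card < D → ∑ v ∈ univ \ S, E (insert v S) = ((k : ℝ) - S.card) * E S)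
    (s : ℕ) (A K : Finset V) (hAK : A ⊆ K) (hK : K.card = k) (hA : A.card + s ≤ D)
    (Φ : Finset (Fin k × V) → ℝ)
    (hΦ : ∀ τ : Equiv.Perm V, (∀ v ∈ A, τ v = v) → ∀ h, Φ (mv τ h) = Φ h)
    (hs : ∀ h, s < h.card → Φ h = 0) :
    ∑ h, Φ h * E (A ∪ vim h) = E A * ∑ h ∈ ((univ : Finset (Fin k)) ×ˢ K).powerset, Φ h := by
  classical
  obtain ⟨Ψ, hΨ⟩ : ∃ Ψ : Finset V → ℝ, ∀ B, Ψ B =
      ∑ h ∈ (univ : Finset (Finset (Fin k × V))) with vim h \ A = B, Φ h := ⟨_, fun _ => rfl⟩
  have hinv : ∀ B B' : Finset V, Disjoint A B → Disjoint A B' → B.card = B'.card →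
      Ψ B = Ψ B' := by
    intro B B' hB hB' hc
    rw [hΨ, hΨ]
    exact Ivr_inv A Φ hΦ B B' hB hB' hc
  have hzero : ∀ B : Finset V, s < B.card → Ψ B = 0 := by
    intro B hB
    rw [hΨ]
    refine Finset.sum_eq_zero fun h hh => hs h ?_
    have h1 : B.card ≤ (vim h).card := by
      rw [← (mem_filter.1 hh).2]
      exact card_le_card sdiff_subset
    exact lt_of_lt_of_le hB (h1.trans (card_vim_le h))
  obtain ⟨ψ, hψ⟩ : ∃ ψ : ℕ → ℝ, ∀ B : Finset V, Disjoint A B → Ψ B = ψ B.card := by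
    refine ⟨fun j => if h : ∃ B : Finset V, Disjoint A B ∧ B.card = j then Ψ h.choose else 0, ?_⟩
    intro B hB
    have h1 : ∃ B' : Finset V, Disjoint A B' ∧ B'.card = B.card := ⟨B, hB, rfl⟩
    change Ψ B = if h : ∃ B' : Finset V, Disjoint A B' ∧ B'.card = B.card then Ψ h.choose else 0
    rw [dif_pos h1]
    exact hinv _ _ hB h1.choose_spec.1 h1.choose_spec.2.symm
  have hdis : ∀ U B : Finset V, B ∈ (U \ A).powerset → Disjoint A B := by
    intro U B hB
    rw [Finset.disjoint_left]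
    intro x hx hxB
    exact (mem_sdiff.1 (mem_powerset.1 hB hxB)).2 hx
  -- the left side
  have hL : ∑ h, Φ h * E (A ∪ vim h) =
      ∑ B ∈ (univ \ A).powerset, Ψ B * E (A ∪ B) := by
    rw [← Finset.sum_fiberwise_of_maps_to (s := univ) (t := (univ \ A).powerset)
      (g := fun h : Finset (Fin k × V) => vim h \ A)
      (fun h _ => mem_powerset.2 (sdiff_subset_sdiff (subset_univ _) (Subset.refl A)))]
    refine Finset.sum_congr rfl fun B _ => ?_
    rw [hΨ, Finset.sum_mul]
    refine Finset.sum_congr rfl fun h hh => ?_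
    rw [← (mem_filter.1 hh).2, union_sdiff_self_eq_union]
  have hR : ∑ h ∈ ((univ : Finset (Fin k)) ×ˢ K).powerset, Φ h =
      ∑ B ∈ (K \ A).powerset, Ψ B := by
    have hmem : ∀ h : Finset (Fin k × V), h ∈ ((univ : Finset (Fin k)) ×ˢ K).powerset ↔
        vim h \ A ∈ (K \ A).powerset := by
      intro h
      rw [mem_powerset, mem_powerset]
      constructor
      · intro h1 v hv
        obtain ⟨h2, h3⟩ := mem_sdiff.1 hv
        obtain ⟨i, hi⟩ := (mem_vim h v).1 h2
        exact mem_sdiff.2 ⟨(mem_product.1 (h1 hi)).2, h3⟩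
      · rintro h1 ⟨i, v⟩ hx
        refine mem_product.2 ⟨mem_univ _, ?_⟩
        by_cases hv : v ∈ A
        · exact hAK hv
        · exact (mem_sdiff.1 (h1 (mem_sdiff.2 ⟨(mem_vim h v).2 ⟨i, hx⟩, hv⟩))).1
    rw [← Finset.sum_fiberwise_of_maps_to (s := ((univ : Finset (Fin k)) ×ˢ K).powerset)
      (t := (K \ A).powerset) (g := fun h : Finset (Fin k × V) => vim h \ A)
      (fun h hh => (hmem h).1 hh)]
    refine Finset.sum_congr rfl fun B hB => ?_
    rw [hΨ]
    refine Finset.sum_congr ?_ fun _ _ => rfl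
    ext h
    rw [mem_filter, mem_filter]
    constructor
    · rintro ⟨_, h1⟩
      exact ⟨mem_univ _, h1⟩
    · rintro ⟨_, h1⟩
      refine ⟨(hmem h).2 ?_, h1⟩
      rw [h1]
      exact hB
  have hKA : (K \ A).card = k - A.card := by
    rw [card_sdiff_of_subset hAK, hK]
  have hle : (K \ A).card ≤ ((univ : Finset V) \ A).card :=
    card_le_card (sdiff_subset_sdiff (subset_univ _) (Subset.refl A))
  rw [hL, hR, Finset.sum_powerset, Finset.sum_powerset, hKA]
  have h1 : ∀ j ∈ range (((univ : Finset V) \ A).card + 1),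
      ∑ B ∈ powersetCard j (univ \ A), Ψ B * E (A ∪ B) =
        E A * (((k - A.card).choose j : ℝ) * ψ j) := by
    intro j hj
    have h2 : ∀ B ∈ powersetCard j ((univ : Finset V) \ A), Ψ B = ψ j := by
      intro B hB
      obtain ⟨h3, h4⟩ := mem_powersetCard.1 hB
      rw [hψ B (hdis univ B (mem_powerset.2 h3)), h4]
    rw [Finset.sum_congr rfl fun B hB => by rw [h2 B hB], ← Finset.mul_sum]
    rcases le_or_gt j s with hjs | hjs
    · rw [Exs_main E k D hD hlin A j (by omega)]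
      ring
    · obtain ⟨B, hB⟩ : (powersetCard j ((univ : Finset V) \ A)).Nonempty := by
        rw [powersetCard_nonempty]
        have := mem_range.1 hj
        omega
      have h3 : ψ j = 0 := by
        rw [← h2 B hB]
        exact hzero B (by rw [(mem_powersetCard.1 hB).2]; exact hjs)
      rw [h3]
      ring
  have h5 : ∀ j ∈ range (k - A.card + 1), ∑ B ∈ powersetCard j (K \ A), Ψ B =
      ((k - A.card).choose j : ℝ) * ψ j := by
    intro j _
    have h2 : ∀ B ∈ powersetCard j (K \ A), Ψ B = ψ j := by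
      intro B hB
      obtain ⟨h3, h4⟩ := mem_powersetCard.1 hB
      rw [hψ B (hdis K B (mem_powerset.2 h3)), h4]
    rw [Finset.sum_congr rfl h2, Finset.sum_const, card_powersetCard, hKA, nsmul_eq_mul]
  rw [Finset.sum_congr rfl h1, Finset.sum_congr rfl h5, ← Finset.mul_sum]
  congr 1
  symm
  refine Finset.sum_subset ?_ fun j _ hj => ?_
  · intro j hj
    rw [mem_range] at hj ⊢
    omega
  · rw [Nat.choose_eq_zero_of_lt (by rw [mem_range] at hj; omega)]
    simp

end Pool.Agent.H9.SI
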