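import Pool.Agent.H9.SI.Ker
import Pool.Agent.H9.SI.Ivr

/-!
Module Lft.  The lift is positive semidefinite.   Use only the STATEMENTS of `Ker_main` and `Ivr_main`.
Take `κ` from `Ker_main k s`.  For `f, g` with at most `s` elements let `A = vim f ∪ vim g` (`|A| ≤ 2 s ≤ k`), `K ⊇ A` with `K.card = k`, `Φ h = κ f h * κ g h` (invariant under the `τ` that fix `A`, as `mv τ f = f` for them).  So
`Ey E (f ∪ g) = yw (f ∪ g) * E A = ∑ h, κ f h * κ g h * E (A ∪ vim h)` and `A ∪ vim h = (vim f ∪ vim h) ∪ (vim g ∪ vim h)`.  Hence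
`∑ f, ∑ g, c f * c g * Ey E (f ∪ g) = ∑ h, ∑ S, ∑ T, d h S * d h T * E (S ∪ T)` with `d h S = ∑ f with vim f ∪ vim h = S, c f * κ f h`, which is `0` if `R < S.card` (then `s < f.card` or `s < h.card`, as `2 s ≤ R`).
-/

set_option autoImplicit false
set_option linter.unusedSectionVars false

open Finset

namespace Pool.Agent.H9.SI

variable {V : Type} [Fintype V] [DecidableEq V]

theorem Lft_mv_fix {k : ℕ} (τ : Equiv.Perm V) (f : Finset (Fin k × V)) (h : ∀ v ∈ vim f, τ v = v) :
    mv τ f = f := by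
  unfold mv
  have h1 : f.image (Prod.map id τ) = f.image id := by
    refine Finset.image_congr fun x hx => ?_
    have h2 : x.2 ∈ vim f := Finset.mem_image_of_mem Prod.snd hx
    exact Prod.ext rfl (h _ h2)
  rw [h1, Finset.image_id]

theorem Lft_fiber {ι : Type} [Fintype ι] (p : ι → Finset V) (a : ι → ℝ) (E : Finset V → ℝ) :
    ∑ S, ∑ T, (∑ f ∈ (univ : Finset ι) with p f = S, a f) *
      (∑ f ∈ (univ : Finset ι) with p f = T, a f) * E (S ∪ T) =
    ∑ f, ∑ g, a f * a g * E (p f ∪ p g) := by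
  classical
  have hR : ∀ f : ι, ∑ g, a f * a g * E (p f ∪ p g) =
      ∑ T, a f * (∑ g ∈ (univ : Finset ι) with p g = T, a g) * E (p f ∪ T) := by
    intro f
    rw [← Finset.sum_fiberwise (s := (univ : Finset ι)) (g := p)]
    refine Finset.sum_congr rfl fun T _ => ?_
    rw [Finset.mul_sum, Finset.sum_mul]
    refine Finset.sum_congr rfl fun g hg => ?_
    rw [(Finset.mem_filter.1 hg).2]
  rw [Finset.sum_congr rfl fun f _ => hR f]
  rw [← Finset.sum_fiberwise (s := (univ : Finset ι)) (g := p)]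
  refine Finset.sum_congr rfl fun S _ => ?_
  rw [Finset.sum_comm]
  refine Finset.sum_congr rfl fun T _ => ?_
  rw [Finset.sum_mul, Finset.sum_mul]
  refine Finset.sum_congr rfl fun f hf => ?_
  rw [(Finset.mem_filter.1 hf).2]

theorem Lft_main (E : Finset V → ℝ) (k s R : ℕ) (hk : 0 < k) (hs : 2 * s ≤ R) (hR : 2 * R ≤ k)
    (hV : k ≤ Fintype.card V)
    (hlin : ∀ S : Finset V, S.card < 2 * R → ∑ v ∈ univ \ S, E (insert v S) = ((k : ℝ) - S.card) * E S)
    (hpsd : ∀ c : Finset V → ℝ, (∀ S, R < S.card → c S = 0) → 0 ≤ ∑ S, ∑ T, c S * c T * E (S ∪ T))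
    (c : Finset (Fin k × V) → ℝ) (hc : ∀ f, s < f.card → c f = 0) :
    0 ≤ ∑ f, ∑ g, c f * c g * Ey E (f ∪ g) := by
  obtain ⟨κ, hinv, hsum, hzero⟩ := Ker_main (V := V) k s hk
  have key : ∀ f g : Finset (Fin k × V), c f * c g * Ey E (f ∪ g) =
      ∑ h, (c f * κ f h) * (c g * κ g h) * E ((vim f ∪ vim h) ∪ (vim g ∪ vim h)) := by
    intro f g
    by_cases hf : s < f.card
    · rw [hc f hf]
      simp
    by_cases hg : s < g.card
    · rw [hc g hg]
      simp
    push Not at hf hg
    have hAc : (vim f ∪ vim g).card ≤ 2 * s := by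
      have h1 := Finset.card_union_le (vim f) (vim g)
      have h2 := card_vim_le f
      have h3 := card_vim_le g
      omega
    obtain ⟨K, hAK, hK⟩ : ∃ K : Finset V, vim f ∪ vim g ⊆ K ∧ K.card = k :=
      Finset.exists_superset_card_eq (by omega) hV
    have h1 := Ivr_main E k (2 * R) hR hlin s (vim f ∪ vim g) K hAK hK (by omega)
      (fun h => κ f h * κ g h)
      (by
        intro τ hτ h
        have hf' : mv τ f = f := Lft_mv_fix τ f fun v hv => hτ v (Finset.mem_union_left _ hv)
        have hg' : mv τ g = g := Lft_mv_fix τ g fun v hv => hτ v (Finset.mem_union_right _ hv)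
        have e1 := hinv τ f h
        have e2 := hinv τ g h
        rw [hf'] at e1
        rw [hg'] at e2
        simp only [e1, e2])
      (by
        intro h hh
        simp only [hzero f h hh, zero_mul])
    have h2 := hsum f g hf hg K hK (Finset.union_subset_left hAK) (Finset.union_subset_right hAK)
    unfold Ey
    rw [vim_union]
    rw [h2] at h1
    have h3 : c f * c g * (yw (f ∪ g) * E (vim f ∪ vim g)) =
        c f * c g * (E (vim f ∪ vim g) * yw (f ∪ g)) := by ring
    rw [h3, ← h1, Finset.mul_sum]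
    refine Finset.sum_congr rfl fun h _ => ?_
    have h4 : (vim f ∪ vim h) ∪ (vim g ∪ vim h) = vim f ∪ vim g ∪ vim h := by
      ext v
      simp only [Finset.mem_union]
      tauto
    rw [h4]
    ring
  have e1 : ∑ f, ∑ g, c f * c g * Ey E (f ∪ g) =
      ∑ h, ∑ f, ∑ g, (c f * κ f h) * (c g * κ g h) * E ((vim f ∪ vim h) ∪ (vim g ∪ vim h)) := by
    rw [Finset.sum_congr rfl fun f _ => Finset.sum_congr rfl fun g _ => key f g]
    rw [Finset.sum_congr rfl fun f _ => Finset.sum_comm]
    exact Finset.sum_comm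
  rw [e1]
  refine Finset.sum_nonneg fun h _ => ?_
  rw [← Lft_fiber (fun f : Finset (Fin k × V) => vim f ∪ vim h) (fun f => c f * κ f h) E]
  refine hpsd (fun S => ∑ f ∈ (univ : Finset (Finset (Fin k × V))) with vim f ∪ vim h = S, c f * κ f h) ?_
  intro S hS
  refine Finset.sum_eq_zero fun f hf => ?_
  have hfS := (Finset.mem_filter.1 hf).2
  have h1 := Finset.card_union_le (vim f) (vim h)
  have h2 := card_vim_le f
  have h3 := card_vim_le h
  rw [hfS] at h1
  by_cases hf1 : s < f.card
  · rw [hc f hf1, zero_mul]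
  · rw [hzero f h (by omega), mul_zero]

end Pool.Agent.H9.SI
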