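import Pool.Agent.H9.SI.Defs

/-!
Module Lic.  The lift satisfies the axioms.
`Lic_lin`: if `f` is not `Inj`, both sides are `0`.  If `Inj f` and `(j, w) ∈ f` then only `v = w` contributes.  If `Inj f` and `j` is not an index of `f`, then `insert (j, v) f` is `Inj` iff `v ∉ vim f`, and `∑ v ∉ vim f, E (insert v (vim f)) = (k - f.card) * E (vim f)`.
-/

set_option autoImplicit false
set_option linter.unusedSectionVars false

open Finset

namespace Pool.Agent.H9.SI

variable {V : Type} [Fintype V] [DecidableEq V] {k : ℕ}

theorem Lic_yw_of_not {f : Finset (Fin k × V)} (h : ¬ Inj f) : yw f = 0 := by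
  unfold yw
  exact if_neg h

theorem Lic_yw_of {f : Finset (Fin k × V)} (h : Inj f) :
    yw f = ((k - f.card).factorial : ℝ) / (k.factorial : ℝ) := by
  unfold yw
  exact if_pos h

theorem Lic_one (E : Finset V → ℝ) : Ey E (∅ : Finset (Fin k × V)) = E ∅ := by
  have h : Inj (∅ : Finset (Fin k × V)) := fun x hx => absurd hx (Finset.notMem_empty x)
  have hk : (k.factorial : ℝ) ≠ 0 := by exact_mod_cast k.factorial_ne_zero
  unfold Ey
  rw [Lic_yw_of h, card_empty, Nat.sub_zero, div_self hk, one_mul]
  rfl

theorem Lic_lin (E : Finset V → ℝ) (D : ℕ) (hD : D ≤ k)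
    (hlin : ∀ S : Finset V, S.card < D → ∑ v ∈ univ \ S, E (insert v S) = ((k : ℝ) - S.card) * E S)
    (f : Finset (Fin k × V)) (hf : f.card < D) (j : Fin k) : ∑ v, Ey E (insert (j, v) f) = Ey E f := by
  by_cases hI : Inj f
  swap
  · have h0 : Ey E f = 0 := by unfold Ey; rw [Lic_yw_of_not hI, zero_mul]
    rw [h0]
    refine Finset.sum_eq_zero fun v _ => ?_
    have h1 : ¬ Inj (insert (j, v) f) := fun h => hI (h.mono (subset_insert _ _))
    unfold Ey
    rw [Lic_yw_of_not h1, zero_mul]
  by_cases hj : ∃ w, (j, w) ∈ f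
  · obtain ⟨w, hw⟩ := hj
    rw [Finset.sum_eq_single w]
    · rw [insert_eq_of_mem hw]
    · intro v _ hvw
      have h1 : ¬ Inj (insert (j, v) f) := by
        intro h
        exact (h (j, v) (mem_insert_self _ _) (j, w) (mem_insert_of_mem hw)
          (fun he => hvw (congrArg Prod.snd he))).1 rfl
      unfold Ey
      rw [Lic_yw_of_not h1, zero_mul]
    · intro h
      exact absurd (mem_univ w) h
  · push Not at hj
    have hc : (vim f).card = f.card := hI.card_vim
    have hk1 : f.card + 1 ≤ k := by omega
    -- restrict the sum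
    have h1 : ∑ v, Ey E (insert (j, v) f) = ∑ v ∈ univ \ vim f, Ey E (insert (j, v) f) := by
      symm
      refine Finset.sum_subset (subset_univ _) fun v _ hv => ?_
      have hv' : v ∈ vim f := by
        by_contra h
        exact hv (mem_sdiff.2 ⟨mem_univ _, h⟩)
      obtain ⟨i, hi⟩ := (mem_vim f v).1 hv'
      have h2 : ¬ Inj (insert (j, v) f) := by
        intro h
        refine (h (j, v) (mem_insert_self _ _) (i, v) (mem_insert_of_mem hi) (fun he => ?_)).2 rfl
        exact hj v (by rw [he]; exact hi)
      unfold Ey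
      rw [Lic_yw_of_not h2, zero_mul]
    have h3 : ∀ v ∈ univ \ vim f, Ey E (insert (j, v) f) =
        ((k - (f.card + 1)).factorial : ℝ) / (k.factorial : ℝ) * E (insert v (vim f)) := by
      intro v hv
      have hv' : v ∉ vim f := (mem_sdiff.1 hv).2
      have hn : (j, v) ∉ f := hj v
      have hI' : Inj (insert (j, v) f) := by
        intro x hx y hy hxy
        rcases mem_insert.1 hx with rfl | hx
        · rcases mem_insert.1 hy with rfl | hy
          · exact absurd rfl hxy
          · refine ⟨fun h => ?_, fun h => ?_⟩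
            · apply hj y.2
              have h' : j = y.1 := h
              rw [h']
              exact hy
            · apply hv'
              rw [mem_vim]
              refine ⟨y.1, ?_⟩
              have h' : v = y.2 := h
              rw [h']
              exact hy
        · rcases mem_insert.1 hy with rfl | hy
          · refine ⟨fun h => ?_, fun h => ?_⟩
            · apply hj x.2
              have h' : x.1 = j := h
              rw [← h']
              exact hx
            · apply hv'
              rw [mem_vim]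
              refine ⟨x.1, ?_⟩
              have h' : x.2 = v := h
              rw [← h']
              exact hx
          · exact hI x hx y hy hxy
      have hvim : vim (insert (j, v) f) = insert v (vim f) := by
        unfold vim
        rw [image_insert]
      unfold Ey
      rw [Lic_yw_of hI', card_insert_of_notMem hn, hvim]
    rw [h1, Finset.sum_congr rfl h3, ← Finset.mul_sum, hlin (vim f) (by rw [hc]; exact hf), hc]
    unfold Ey
    rw [Lic_yw_of hI]
    have h4 : ((k - f.card).factorial : ℝ) = ((k : ℝ) - f.card) * ((k - (f.card + 1)).factorial : ℝ) := by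
      have h5 : k - f.card = (k - (f.card + 1)) + 1 := by omega
      have h6 : ((k : ℝ) - f.card) = ((k - (f.card + 1) : ℕ) : ℝ) + 1 := by
        rw [Nat.cast_sub hk1]
        push_cast
        ring
      rw [h6, h5, Nat.factorial_succ]
      push_cast
      ring
    rw [h4]
    ring

theorem Lic_adj (G : SimpleGraph V) (E : Finset V → ℝ)
    (hadj : ∀ (S : Finset V) (u v : V), u ∈ S → v ∈ S → u ≠ v → ¬ G.Adj u v → E S = 0)
    (f : Finset (Fin k × V)) (x y : Fin k × V) (hx : x ∈ f) (hy : y ∈ f) (hxy : x ≠ y)
    (h : ¬ (x.1 ≠ y.1 ∧ G.Adj x.2 y.2)) : Ey E f = 0 := by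
  unfold Ey
  by_cases hI : Inj f
  · obtain ⟨h1, h2⟩ := hI x hx y hy hxy
    rw [hadj (vim f) x.2 y.2 ((mem_vim _ _).2 ⟨x.1, hx⟩) ((mem_vim _ _).2 ⟨y.1, hy⟩) h2
      (fun h3 => h ⟨h1, h3⟩), mul_zero]
  · rw [Lic_yw_of_not hI, zero_mul]

theorem Lic_out (U : Finset V) (E : Finset V → ℝ) (hout : ∀ S : Finset V, ¬ S ⊆ U → E S = 0)
    (f : Finset (Fin k × V)) (h : ¬ vim f ⊆ U) : Ey E f = 0 := by
  unfold Ey
  rw [hout _ h, mul_zero]

end Pool.Agent.H9.SI
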