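import Mathlib

/-!
Module Gen.  Signed measures on finsets of a finite type (generic version of Module SQ/Sem).
-/

set_option autoImplicit false
set_option linter.unusedSectionVars false

open Finset

namespace Pool.Agent.H9.SI

variable {X : Type} [Fintype X] [DecidableEq X]

/-- indicator -/
noncomputable def Gen_i (S K : Finset X) : ℝ := if S ⊆ K then 1 else 0

/-- the weight of `K` -/
noncomputable def Gen_w (E : Finset X → ℝ) (K : Finset X) : ℝ :=
  ∑ S, (if K ⊆ S then (-1 : ℝ) ^ (S \ K).card * E S else 0)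

theorem Gen_alt (S T : Finset X) :
    ∑ K : Finset X, (if S ⊆ K ∧ K ⊆ T then (-1 : ℝ) ^ (T \ K).card else 0) = if S = T then 1 else 0 := by
  by_cases hST : S ⊆ T
  · have h1 : ∑ K : Finset X, (if S ⊆ K ∧ K ⊆ T then (-1 : ℝ) ^ (T \ K).card else 0) =
        ∑ J ∈ (T \ S).powerset, (-1 : ℝ) ^ J.card := by
      rw [← Finset.sum_filter]
      refine Finset.sum_bij' (fun K _ => T \ K) (fun J _ => T \ J) ?_ ?_ ?_ ?_ ?_
      · intro K hK
        rw [mem_filter] at hK
        rw [mem_powerset]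
        exact sdiff_subset_sdiff (Subset.refl _) hK.2.1
      · intro J hJ
        rw [mem_powerset] at hJ
        rw [mem_filter]
        refine ⟨mem_univ _, ?_, sdiff_subset⟩
        intro x hx
        rw [mem_sdiff]
        exact ⟨hST hx, fun h => (mem_sdiff.1 (hJ h)).2 hx⟩
      · intro K hK
        rw [mem_filter] at hK
        rw [Finset.sdiff_sdiff_eq_self hK.2.2]
      · intro J hJ
        rw [mem_powerset] at hJ
        rw [Finset.sdiff_sdiff_eq_self (hJ.trans sdiff_subset)]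
      · intro K hK
        rfl
    rw [h1]
    have h2 := Finset.sum_powerset_neg_one_pow_card (x := T \ S)
    have h3 : ∑ J ∈ (T \ S).powerset, (-1 : ℝ) ^ J.card = ((∑ J ∈ (T \ S).powerset, (-1 : ℤ) ^ J.card : ℤ) : ℝ) := by
      push_cast
      rfl
    rw [h3, h2]
    by_cases h4 : S = T
    · subst h4
      simp
    · rw [if_neg h4, if_neg]
      · simp
      · intro h5
        rw [sdiff_eq_empty_iff_subset] at h5
        exact h4 (Subset.antisymm hST h5)
  · have h4 : S ≠ T := fun h => hST (h ▸ Subset.refl _)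
    rw [if_neg h4]
    refine Finset.sum_eq_zero fun K _ => if_neg ?_
    exact fun h => hST (h.1.trans h.2)

theorem Gen_inv (E : Finset X → ℝ) (S : Finset X) :
    ∑ K, Gen_w E K * Gen_i S K = E S := by
  have h1 : ∀ K, Gen_w E K * Gen_i S K = ∑ T, (if S ⊆ K ∧ K ⊆ T then (-1 : ℝ) ^ (T \ K).card else 0) * E T := by
    intro K
    unfold Gen_w Gen_i
    rw [Finset.sum_mul]
    refine Finset.sum_congr rfl fun T _ => ?_
    by_cases h1 : K ⊆ T <;> by_cases h2 : S ⊆ K <;> simp [h1, h2]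
  rw [Finset.sum_congr rfl fun K _ => h1 K, Finset.sum_comm]
  have h2 : ∀ T, ∑ K, (if S ⊆ K ∧ K ⊆ T then (-1 : ℝ) ^ (T \ K).card else 0) * E T =
      if S = T then E T else 0 := by
    intro T
    rw [← Finset.sum_mul, Gen_alt]
    split_ifs <;> simp
  rw [Finset.sum_congr rfl fun T _ => h2 T, Finset.sum_ite_eq]
  simp

theorem Gen_mul (S T K : Finset X) : Gen_i S K * Gen_i T K = Gen_i (S ∪ T) K := by
  unfold Gen_i
  by_cases h1 : S ⊆ K <;> by_cases h2 : T ⊆ K <;> simp [h1, h2, union_subset_iff]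

/-- value of a monomial -/
noncomputable def gval (t : Finset X × Finset X) (K : Finset X) : ℝ :=
  if t.1 ⊆ K ∧ Disjoint t.2 K then 1 else 0

theorem Gen_val (U : Finset X) (t : Finset X × Finset X) (K : Finset X)
    (hK : K ⊆ U) : gval t K = if t.1 ⊆ U then
      ∑ J ∈ (t.2 ∩ U).powerset, (-1 : ℝ) ^ J.card * Gen_i (t.1 ∪ J) K else 0 := by
  split_ifs with h1
  · have h2 : ∀ J, Gen_i (t.1 ∪ J) K = Gen_i t.1 K * Gen_i J K := fun J => (Gen_mul _ _ _).symm
    have h3 : ∑ J ∈ (t.2 ∩ U).powerset, (-1 : ℝ) ^ J.card * Gen_i J K = ∑ J ∈ (t.2 ∩ K).powerset, (-1 : ℝ) ^ J.card := by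
      unfold Gen_i
      have h4 : ∀ J : Finset X, (-1 : ℝ) ^ J.card * (if J ⊆ K then 1 else 0) = if J ⊆ K then (-1 : ℝ) ^ J.card else 0 := by
        intro J
        split_ifs <;> simp
      rw [Finset.sum_congr rfl fun J _ => h4 J, ← Finset.sum_filter]
      refine Finset.sum_congr ?_ fun _ _ => rfl
      ext J
      rw [mem_filter, mem_powerset, mem_powerset, subset_inter_iff, subset_inter_iff]
      constructor
      · exact fun h => ⟨h.1.1, h.2⟩
      · exact fun h => ⟨⟨h.1, h.2.trans hK⟩, h.2⟩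
    have h5 : ∑ J ∈ (t.2 ∩ U).powerset, (-1 : ℝ) ^ J.card * Gen_i (t.1 ∪ J) K =
        Gen_i t.1 K * ∑ J ∈ (t.2 ∩ U).powerset, (-1 : ℝ) ^ J.card * Gen_i J K := by
      rw [Finset.mul_sum]
      refine Finset.sum_congr rfl fun J _ => ?_
      rw [h2]
      ring
    rw [h5, h3]
    have h6 := Finset.sum_powerset_neg_one_pow_card (x := t.2 ∩ K)
    have h7 : ∑ J ∈ (t.2 ∩ K).powerset, (-1 : ℝ) ^ J.card = ((∑ J ∈ (t.2 ∩ K).powerset, (-1 : ℤ) ^ J.card : ℤ) : ℝ) := by
      push_cast
      rfl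
    rw [h7, h6]
    unfold gval Gen_i
    by_cases h8 : t.1 ⊆ K <;> by_cases h9 : Disjoint t.2 K
    · rw [if_pos ⟨h8, h9⟩, if_pos h8, if_pos (disjoint_iff_inter_eq_empty.1 h9)]
      simp
    · rw [if_neg (fun h => h9 h.2), if_neg (fun h => h9 (disjoint_iff_inter_eq_empty.2 h))]
      simp
    · rw [if_neg (fun h => h8 h.1), if_neg h8]
      simp
    · rw [if_neg (fun h => h8 h.1), if_neg h8]
      simp
  · unfold gval
    rw [if_neg]
    exact fun h => h1 (h.1.trans hK)

theorem Gen_lin (r : ℕ) (U : Finset X) (Good : Finset X → Prop) (M : Finset (Finset X × Finset X))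
    (hM : ∀ t ∈ M, t.1 ⊆ U → ∀ J ⊆ t.2 ∩ U, Good (t.1 ∪ J) → (t.1 ∪ J).card < r) (α : Finset X × Finset X → ℝ) :
    ∃ c : Finset X → ℝ, (∀ S, r ≤ S.card → c S = 0) ∧
      ∀ K ⊆ U, (∀ S ⊆ K, Good S) → ∑ t ∈ M, α t * gval t K = ∑ S, c S * Gen_i S K := by
  classical
  refine ⟨fun S => if Good S then ∑ t ∈ M, if t.1 ⊆ U then α t * ∑ J ∈ (t.2 ∩ U).powerset,
    (if t.1 ∪ J = S then (-1 : ℝ) ^ J.card else 0) else 0 else 0, fun S hS => ?_, fun K hK hG => ?_⟩
  · show (if Good S then _ else (0 : ℝ)) = 0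
    split_ifs with hg
    · refine Finset.sum_eq_zero fun t ht => ?_
      split_ifs with h1
      · rw [Finset.sum_eq_zero, mul_zero]
        intro J hJ
        rw [if_neg]
        intro h2
        rw [mem_powerset] at hJ
        have h3 := hM t ht h1 J hJ (h2 ▸ hg)
        rw [h2] at h3
        omega
      · rfl
    · rfl
  · have h0 : ∀ S, (if Good S then ∑ t ∈ M, if t.1 ⊆ U then α t * ∑ J ∈ (t.2 ∩ U).powerset,
        (if t.1 ∪ J = S then (-1 : ℝ) ^ J.card else 0) else 0 else 0) * Gen_i S K =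
        (∑ t ∈ M, if t.1 ⊆ U then α t * ∑ J ∈ (t.2 ∩ U).powerset,
        (if t.1 ∪ J = S then (-1 : ℝ) ^ J.card else 0) else 0) * Gen_i S K := by
      intro S
      by_cases hg : Good S
      · rw [if_pos hg]
      · have h2 : Gen_i S K = 0 := by
          unfold Gen_i
          rw [if_neg (fun h => hg (hG S h))]
        rw [h2, mul_zero, mul_zero]
    have h1 : ∀ S, (∑ t ∈ M, if t.1 ⊆ U then α t * ∑ J ∈ (t.2 ∩ U).powerset,
        (if t.1 ∪ J = S then (-1 : ℝ) ^ J.card else 0) else 0) * Gen_i S K =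
        ∑ t ∈ M, if t.1 ⊆ U then α t * ∑ J ∈ (t.2 ∩ U).powerset,
        (if t.1 ∪ J = S then (-1 : ℝ) ^ J.card * Gen_i S K else 0) else 0 := by
      intro S
      rw [Finset.sum_mul]
      refine Finset.sum_congr rfl fun t _ => ?_
      split_ifs with h2
      · rw [mul_assoc, Finset.sum_mul]
        congr 1
        refine Finset.sum_congr rfl fun J _ => ?_
        split_ifs <;> simp
      · simp
    show _ = ∑ S, (if Good S then _ else (0 : ℝ)) * Gen_i S K
    rw [Finset.sum_congr rfl fun S _ => h0 S, Finset.sum_congr rfl fun S _ => h1 S, Finset.sum_comm]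
    refine Finset.sum_congr rfl fun t _ => ?_
    rw [Gen_val U t K hK]
    split_ifs with h2
    · rw [← Finset.mul_sum, Finset.sum_comm]
      congr 1
      refine Finset.sum_congr rfl fun J _ => ?_
      rw [Finset.sum_ite_eq]
      simp
    · simp

end Pool.Agent.H9.SI
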