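import Pool.Agent.H9.SI.Stmt
import Pool.Agent.H9.SI.Defs
import Pool.Agent.H9.SI.Gen

/-!
Module Smi.  A pseudo-expectation excludes refutations of the k-clique formula (semantic version).
-/

set_option autoImplicit false
set_option linter.unusedSectionVars false

open Finset

namespace Pool.Agent.H9.SI

variable {N k : ℕ}

/-- `K` is the graph of a partial clique. -/
def Smi_ok (G : SimpleGraph (Fin N)) (K : Finset (Fin k × Fin N)) : Prop :=
  ∀ x ∈ K, ∀ y ∈ K, x ≠ y → x.1 ≠ y.1 ∧ G.Adj x.2 y.2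

open Classical in
/-- the function with graph `K` -/
noncomputable def Smi_F (K : Finset (Fin k × Fin N)) (i : Fin k) : Option (Fin N) :=
  if h : ∃ v, (i, v) ∈ K then some h.choose else none

theorem Smi_F_iff {G : SimpleGraph (Fin N)} {K : Finset (Fin k × Fin N)} (hK : Smi_ok G K) (i : Fin k) (v : Fin N) :
    Smi_F K i = some v ↔ (i, v) ∈ K := by
  unfold Smi_F
  split_ifs with h
  · rw [Option.some_inj]
    constructor
    · intro h1
      rw [← h1]
      exact h.choose_spec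
    · intro h1
      by_contra h2
      exact (hK _ h.choose_spec _ h1 (fun h3 => h2 (Prod.ext_iff.1 h3).2)).1 rfl
  · constructor
    · intro h1
      exact absurd h1 (by simp)
    · intro h1
      exact absurd ⟨v, h1⟩ h

theorem Smi_F_clique {G : SimpleGraph (Fin N)} {K : Finset (Fin k × Fin N)} (hK : Smi_ok G K) :
    PartialClique G (Smi_F K) := by
  intro i j u v hij hu hv
  rw [Smi_F_iff hK] at hu hv
  exact (hK _ hu _ hv (fun h => hij (Prod.ext_iff.1 h).1)).2

theorem Smi_val {G : SimpleGraph (Fin N)} {K : Finset (Fin k × Fin N)} (hK : Smi_ok G K)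
    (t : Finset (Fin k × Fin N) × Finset (Fin k × Fin N)) : ival t (Smi_F K) = gval t K := by
  unfold ival gval
  have h1 : (∀ x ∈ t.1, Smi_F K x.1 = some x.2) ↔ t.1 ⊆ K := by
    constructor
    · intro h x hx
      exact (Smi_F_iff hK x.1 x.2).1 (h x hx)
    · intro h x hx
      exact (Smi_F_iff hK x.1 x.2).2 (h hx)
  have h2 : (∀ x ∈ t.2, Smi_F K x.1 ≠ some x.2) ↔ Disjoint t.2 K := by
    rw [disjoint_left]
    constructor
    · intro h x hx hxK
      exact h x hx ((Smi_F_iff hK x.1 x.2).2 hxK)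
    · intro h x hx h3
      exact h hx ((Smi_F_iff hK x.1 x.2).1 h3)
  simp only [h1, h2]

theorem Smi_some {G : SimpleGraph (Fin N)} {K : Finset (Fin k × Fin N)} (hK : Smi_ok G K) (j : Fin k) :
    (if (Smi_F K j).isSome then (1 : ℝ) else 0) = ∑ v, Gen_i {(j, v)} K := by
  unfold Gen_i
  simp only [singleton_subset_iff]
  by_cases h : ∃ v, (j, v) ∈ K
  · obtain ⟨v, hv⟩ := h
    have h1 := (Smi_F_iff hK j v).2 hv
    rw [h1, Option.isSome_some, if_pos rfl, Finset.sum_eq_single v]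
    · rw [if_pos hv]
    · intro w _ hw
      rw [if_neg]
      intro h2
      exact (hK _ h2 _ hv (fun h3 => hw (Prod.ext_iff.1 h3).2)).1 rfl
    · intro h2
      exact absurd (mem_univ _) h2
  · rw [if_neg, Finset.sum_eq_zero]
    · intro v _
      rw [if_neg (fun h2 => h ⟨v, h2⟩)]
    · intro h2
      rw [Option.isSome_iff_exists] at h2
      obtain ⟨v, hv⟩ := h2
      exact h ⟨v, (Smi_F_iff hK j v).1 hv⟩

theorem Smi_main (G : SimpleGraph (Fin N)) (s : ℕ) (hs : 1 ≤ s) (U : Finset (Fin N))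
    (E : Finset (Fin k × Fin N) → ℝ) (h1 : E ∅ = 1)
    (hlin : ∀ f : Finset (Fin k × Fin N), f.card < 2 * s → ∀ j : Fin k, ∑ v, E (insert (j, v) f) = E f)
    (hadj : ∀ (f : Finset (Fin k × Fin N)) (x y : Fin k × Fin N), x ∈ f → y ∈ f → x ≠ y →
      ¬ (x.1 ≠ y.1 ∧ G.Adj x.2 y.2) → E f = 0)
    (hout : ∀ f : Finset (Fin k × Fin N), ¬ vim f ⊆ U → E f = 0)
    (hpsd : ∀ c : Finset (Fin k × Fin N) → ℝ, (∀ f, s < f.card → c f = 0) →
      0 ≤ ∑ f, ∑ g, c f * c g * E (f ∪ g))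
    (M : Finset (Finset (Fin k × Fin N) × Finset (Fin k × Fin N)))
    (hM : ∀ t ∈ M, vim t.1 ⊆ U → (vim t.1 ∪ (vim t.2 ∩ U)).card < s) : ¬ SumOfSquaresFormula G M := by
  classical
  rintro ⟨m, q, a, h⟩
  set UU : Finset (Fin k × Fin N) := univ ×ˢ U with hUU
  have hsub : ∀ f : Finset (Fin k × Fin N), f ⊆ UU ↔ vim f ⊆ U := by
    intro f
    constructor
    · intro hf v hv
      rw [mem_vim] at hv
      obtain ⟨i, hi⟩ := hv
      exact (mem_product.1 (hf hi)).2
    · intro hf x hx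
      rw [hUU, mem_product]
      exact ⟨mem_univ _, hf ((mem_vim f x.2).2 ⟨x.1, hx⟩)⟩
  have hM' : ∀ t ∈ M, t.1 ⊆ UU → ∀ J ⊆ t.2 ∩ UU, Inj (t.1 ∪ J) → (t.1 ∪ J).card < s := by
    intro t ht ht1 J hJ hInj
    rw [← hInj.card_vim, vim_union]
    refine lt_of_le_of_lt (card_le_card (union_subset_union (Subset.refl _) ?_)) (hM t ht ((hsub _).1 ht1))
    intro v hv
    rw [mem_vim] at hv
    obtain ⟨i, hi⟩ := hv
    have h2 := mem_inter.1 (hJ hi)
    exact mem_inter.2 ⟨(mem_vim _ _).2 ⟨i, h2.1⟩, (mem_product.1 h2.2).2⟩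
  have hgood : ∀ K : Finset (Fin k × Fin N), Smi_ok G K → ∀ S ⊆ K, Inj S := by
    intro K hK S hS x hx y hy hxy
    have h2 := hK x (hS hx) y (hS hy) hxy
    exact ⟨h2.1, h2.2.ne⟩
  have hw1 : ∀ K, ¬ K ⊆ UU → Gen_w E K = 0 := by
    intro K hK
    unfold Gen_w
    refine Finset.sum_eq_zero fun S _ => ?_
    split_ifs with h2
    · rw [hout S (fun h3 => hK (h2.trans ((hsub S).2 h3))), mul_zero]
    · rfl
  have hw2 : ∀ K : Finset (Fin k × Fin N), ¬ Smi_ok G K → Gen_w E K = 0 := by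
    intro K hK
    unfold Smi_ok at hK
    push Not at hK
    obtain ⟨x, hx, y, hy, hxy, hadj'⟩ := hK
    unfold Gen_w
    refine Finset.sum_eq_zero fun S _ => ?_
    split_ifs with h2
    · rw [hadj S x y (h2 hx) (h2 hy) hxy (fun h3 => hadj' h3.1 h3.2), mul_zero]
    · rfl
  -- the squares
  have hsq : ∀ i, 0 ≤ ∑ K, Gen_w E K * (∑ t ∈ M, q i t * gval t K) ^ 2 := by
    intro i
    obtain ⟨c, hc, hcK⟩ := Gen_lin s UU Inj M hM' (q i)
    have h2 : ∀ K, Gen_w E K * (∑ t ∈ M, q i t * gval t K) ^ 2 =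
        ∑ S, ∑ T, c S * c T * (Gen_w E K * Gen_i (S ∪ T) K) := by
      intro K
      by_cases hK : K ⊆ UU ∧ Smi_ok G K
      · rw [hcK K hK.1 (hgood K hK.2), sq, Finset.sum_mul_sum, Finset.mul_sum]
        refine Finset.sum_congr rfl fun S _ => ?_
        rw [Finset.mul_sum]
        refine Finset.sum_congr rfl fun T _ => ?_
        rw [← Gen_mul]
        ring
      · have h3 : Gen_w E K = 0 := by
          by_cases h4 : K ⊆ UU
          · exact hw2 K (fun h5 => hK ⟨h4, h5⟩)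
          · exact hw1 K h4
        rw [h3]
        simp
    rw [Finset.sum_congr rfl fun K _ => h2 K, Finset.sum_comm]
    have h3 : ∀ S, ∑ K, ∑ T, c S * c T * (Gen_w E K * Gen_i (S ∪ T) K) = ∑ T, c S * c T * E (S ∪ T) := by
      intro S
      rw [Finset.sum_comm]
      refine Finset.sum_congr rfl fun T _ => ?_
      rw [← Finset.mul_sum, Gen_inv]
    rw [Finset.sum_congr rfl fun S _ => h3 S]
    exact hpsd c (fun S hS => hc S hS.le)
  -- the linear constraints
  have hli : ∀ j : Fin k, ∑ K, Gen_w E K * ((∑ t ∈ M, a j t * gval t K) * (∑ v, Gen_i {(j, v)} K - 1)) = 0 := by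
    intro j
    obtain ⟨c, hc, hcK⟩ := Gen_lin s UU Inj M hM' (a j)
    have h2 : ∀ K, Gen_w E K * ((∑ t ∈ M, a j t * gval t K) * (∑ v, Gen_i {(j, v)} K - 1)) =
        ∑ S, c S * (∑ v, Gen_w E K * Gen_i (insert (j, v) S) K - (Gen_w E K * Gen_i S K)) := by
      intro K
      by_cases hK : K ⊆ UU ∧ Smi_ok G K
      · rw [hcK K hK.1 (hgood K hK.2), Finset.sum_mul, Finset.mul_sum]
        refine Finset.sum_congr rfl fun S _ => ?_
        have h3 : ∑ v, Gen_w E K * Gen_i (insert (j, v) S) K = Gen_w E K * (Gen_i S K * ∑ v, Gen_i {(j, v)} K) := by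
          rw [Finset.mul_sum, Finset.mul_sum]
          refine Finset.sum_congr rfl fun v _ => ?_
          rw [Gen_mul, union_comm, ← insert_eq]
        rw [h3]
        ring
      · have h3 : Gen_w E K = 0 := by
          by_cases h4 : K ⊆ UU
          · exact hw2 K (fun h5 => hK ⟨h4, h5⟩)
          · exact hw1 K h4
        rw [h3]
        simp
    rw [Finset.sum_congr rfl fun K _ => h2 K, Finset.sum_comm]
    refine Finset.sum_eq_zero fun S _ => ?_
    rw [← Finset.mul_sum]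
    by_cases hS : s ≤ S.card
    · rw [hc S hS, zero_mul]
    · rw [Finset.sum_sub_distrib, Finset.sum_comm, Gen_inv]
      have h4 : ∀ v, ∑ K, Gen_w E K * Gen_i (insert (j, v) S) K = E (insert (j, v) S) := fun v => Gen_inv E _
      rw [Finset.sum_congr rfl fun v _ => h4 v, hlin S (by omega) j]
      ring
  have hall : ∑ K, Gen_w E K * (∑ i, (∑ t ∈ M, q i t * gval t K) ^ 2 +
      ∑ j, (∑ t ∈ M, a j t * gval t K) * (∑ v, Gen_i {(j, v)} K - 1)) = ∑ K, Gen_w E K * (-1) := by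
    refine Finset.sum_congr rfl fun K _ => ?_
    by_cases hK : Smi_ok G K
    · have h2 := h (Smi_F K) (Smi_F_clique hK)
      simp only [Smi_val hK, Smi_some hK] at h2
      rw [h2]
    · rw [hw2 K hK]
      simp
  have hone : ∑ K, Gen_w E K = 1 := by
    have h2 := Gen_inv E ∅
    rw [h1] at h2
    rw [← h2]
    refine Finset.sum_congr rfl fun K _ => ?_
    simp [Gen_i]
  have hexp : ∑ K, Gen_w E K * (∑ i, (∑ t ∈ M, q i t * gval t K) ^ 2 +
      ∑ j, (∑ t ∈ M, a j t * gval t K) * (∑ v, Gen_i {(j, v)} K - 1)) =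
      ∑ i, ∑ K, Gen_w E K * (∑ t ∈ M, q i t * gval t K) ^ 2 +
      ∑ j, ∑ K, Gen_w E K * ((∑ t ∈ M, a j t * gval t K) * (∑ v, Gen_i {(j, v)} K - 1)) := by
    rw [Finset.sum_comm, Finset.sum_comm (s := (univ : Finset (Fin k))), ← Finset.sum_add_distrib]
    refine Finset.sum_congr rfl fun K _ => ?_
    rw [mul_add, Finset.mul_sum, Finset.mul_sum]
  rw [hexp, Finset.sum_eq_zero (s := (univ : Finset (Fin k))) (fun j _ => hli j), add_zero] at hall
  have h9 : 0 ≤ ∑ i, ∑ K, Gen_w E K * (∑ t ∈ M, q i t * gval t K) ^ 2 := Finset.sum_nonneg fun i _ => hsq i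
  rw [← Finset.sum_mul, hone] at hall
  linarith

end Pool.Agent.H9.SI
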