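import Pool.Agent.H9.SQ.FinS
import Pool.Agent.H9.SI.Smi
import Pool.Agent.H9.SI.Lft
import Pool.Agent.H9.SI.Lic

/-!
Module Fni.  The theorem for the k-clique formula.
-/

set_option autoImplicit false
set_option linter.unusedSectionVars false

open Finset

namespace Pool.Agent.H9.SI

open Pool.Agent.H9.KR Pool.Agent.H9.SQ

theorem Fni_det {N : ℕ} (G : SimpleGraph (Fin N)) (n r k s : ℕ) (p ε τ χ : ℝ) (H : Num n r k p ε τ χ)
    (hs : 1 ≤ s) (hsr : 2 * s ≤ r) (hkN : k ≤ N)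
    (U : Finset (Fin N)) (h : Reg G U n p ε (4 * r))
    (M : Finset (Finset (Fin k × Fin N) × Finset (Fin k × Fin N)))
    (hM : ∀ t ∈ M, vim t.1 ⊆ U → (vim t.1 ∪ (vim t.2 ∩ U)).card < s) : ¬ SumOfSquaresFormula G M := by
  have hk := H.k_ge
  have hlin : ∀ S : Finset (Fin N), S.card < 2 * r →
      ∑ v ∈ univ \ S, Ez G U k (2 * r) (insert v S) = ((k : ℝ) - S.card) * Ez G U k (2 * r) S :=
    fun S hS => Lin_main G U k (2 * r) hk S hS
  refine Smi_main G s hs U (Ey (Ez G U k (2 * r))) ?_ ?_ ?_ ?_ ?_ M hM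
  · rw [Lic_one, Lin_one G U k (2 * r) (Psd_pos H h)]
  · exact fun f hf j => Lic_lin _ (2 * r) hk hlin f (by omega) j
  · exact fun f x y hx hy hxy hn => Lic_adj G _ (fun S u v hu hv huv hadj =>
      Lin_adj G U k (2 * r) S u v hu hv huv hadj) f x y hx hy hxy hn
  · exact fun f hf => Lic_out U _ (fun S hS => Lin_out G U k (2 * r) S hS) f hf
  · exact fun c hc => Lft_main _ k s r (by omega) hsr hk (by rw [Fintype.card_fin]; exact hkN) hlin
      (fun c hc => Psd_main H h c hc) c hc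

theorem Fni_main (e r s k N : ℕ) (p : unitInterval) (he : 1 ≤ e) (hs : 1 ≤ s) (hsr : 2 * s ≤ r) (hk : 2 * r ≤ k)
    (hA : (e * k.choose r) ^ (100 * e) ≤ N) (hp : 1 ≤ N * (p : ℝ) ^ (100 * e * r)) :
    (SimpleGraph.binomialRandom (Fin N) p).real {G |
      ∃ M : Finset (Finset (Fin k × Fin N) × Finset (Fin k × Fin N)),
      (∀ t ∈ M, (t.1.image Prod.snd).card * e < s → (t.2.image Prod.snd).card ^ e ≤ N ^ (e - 1)) ∧
      SumOfSquaresFormula G M ∧
      (M.filter (fun t => s ≤ ((t.1 ∪ t.2).image Prod.snd).card)).card ^ (4 * e) ≤ N ^ s} ≤ 1 / N := by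
  have hp0 : (0 : ℝ) ≤ (p : ℝ) := p.2.1
  have hp1 : (p : ℝ) ≤ 1 := p.2.2
  obtain ⟨n, ε, τ, χ, H, hn, hN, hε1, hz, hpr⟩ := Nmb_main N e r k p he (by omega) hk hA hp0 hp1 hp
  have hN0 : (0 : ℝ) < N := by
    have : 0 < N := lt_of_le_of_lt (Nat.zero_le _) hN
    exact_mod_cast this
  have hnN : n ≤ N := (Nat.le_self_pow (by omega) n).trans hn
  have hkN : k ≤ N := by
    have h1 := H.ρ_le
    have h2 := H.p_pos
    have h3 := H.n_pos
    have h4 : (0 : ℝ) < n * (p : ℝ) ^ r := by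
      have : (0 : ℝ) < n := by exact_mod_cast h3
      positivity
    have h5 : (1 : ℝ) ≤ r := by exact_mod_cast H.r_pos
    have h6 : (k : ℝ) / (n * (p : ℝ) ^ r) ≤ 1 := by
      have h7 : (0 : ℝ) ≤ (k : ℝ) / (n * (p : ℝ) ^ r) := by positivity
      nlinarith
    rw [div_le_one h4] at h6
    have h8 : (n : ℝ) * (p : ℝ) ^ r ≤ n := by
      have h9 : (p : ℝ) ^ r ≤ 1 := pow_le_one₀ hp0 hp1
      have : (0 : ℝ) ≤ n := by positivity
      nlinarith
    have h10 : (k : ℝ) ≤ n := h6.trans h8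
    exact (Nat.cast_le.1 h10).trans hnN
  have hw : ∀ G : SimpleGraph (Fin N), 0 ≤ (SimpleGraph.binomialRandom (Fin N) p).real {G} :=
    fun G => MeasureTheory.measureReal_nonneg
  rw [real_eq_pr]
  have h1 := Avg_markov (fun G : SimpleGraph (Fin N) => (SimpleGraph.binomialRandom (Fin N) p).real {G}) hw hnN
    (fun G U => ¬ Reg G U n (p : ℝ) ε (4 * r)) (1 / (2 * N))
    (fun U hU => (Rgp_main p U n (4 * r) hU ε H.ε_pos hε1 hz).trans hpr)
  have h2 : 2 * (1 / (2 * (N : ℝ))) = 1 / N := by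
    field_simp
  rw [h2] at h1
  refine le_trans (pr_mono hw ?_) h1
  rintro G ⟨M, hQ, hR, hM⟩
  by_contra hcon
  push Not at hcon
  have hQ' : ∀ t ∈ M.image (fun t => (vim t.1, vim t.2)), t.1.card * e < s → t.2.card ^ e ≤ N ^ (e - 1) := by
    intro t ht
    obtain ⟨t', ht', rfl⟩ := mem_image.1 ht
    exact hQ t' ht'
  have hM' : ((M.image (fun t => (vim t.1, vim t.2))).filter (fun t => s ≤ (t.1 ∪ t.2).card)).card ^ (4 * e) ≤
      N ^ s := by
    refine le_trans (Nat.pow_le_pow_left ?_ _) hM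
    refine le_trans (card_le_card (t := (M.filter (fun t => s ≤ ((t.1 ∪ t.2).image Prod.snd).card)).image
      (fun t => (vim t.1, vim t.2))) ?_) card_image_le
    intro t ht
    obtain ⟨ht1, ht2⟩ := mem_filter.1 ht
    obtain ⟨t', ht', rfl⟩ := mem_image.1 ht1
    refine mem_image.2 ⟨t', mem_filter.2 ⟨ht', ?_⟩, rfl⟩
    rw [image_union]
    exact ht2
  obtain ⟨U, hU, hreg, hUM⟩ := Pix_main he hs hn hN (fun U => ¬ Reg G U n (p : ℝ) ε (4 * r)) hcon _ hQ' hM'
  refine Fni_det G n r k s p ε τ χ H hs hsr hkN U (not_not.1 hreg) M ?_ hR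
  intro t ht ht1
  exact hUM _ (mem_image_of_mem _ ht) ht1

end Pool.Agent.H9.SI
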