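import Pool.Agent.H9.SI.Stm
import Pool.Agent.H9.SI.Defs
import Pool.Agent.H9.SI.Gen

/-!
Module Smj.  A pseudo-expectation excludes refutations of the k-clique formula (arbitrary functions).
-/

set_option autoImplicit false
set_option linter.unusedSectionVars false

open Finset

namespace Pool.Agent.H9.SI

variable {N k : ℕ}

/-- `K` is the graph of a partial clique. -/
def Smj_ok (G : SimpleGraph (Fin N)) (K : Finset (Fin k × Fin N)) : Prop :=
  ∀ x ∈ K, ∀ y ∈ K, x ≠ y → x.1 ≠ y.1 ∧ G.Adj x.2 y.2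

open Classical in
/-- the function with graph `K` -/
noncomputable def Smj_F (K : Finset (Fin k × Fin N)) (i : Fin k) : Option (Fin N) :=
  if h : ∃ v, (i, v) ∈ K then some h.choose else none

theorem Smj_F_iff {G : SimpleGraph (Fin N)} {K : Finset (Fin k × Fin N)} (hK : Smj_ok G K) (i : Fin k) (v : Fin N) :
    Smj_F K i = some v ↔ (i, v) ∈ K := by
  unfold Smj_F
  split_ifs with h
  · rw [Option.some_inj]
    constructor
    · intro h1
      rw [← h1]
      exact h.choose_spec
    · intro h1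
      by_contra h2
      exact (hK _ h.choose_spec _ h1 (fun h3 => h2 (Prod.ext_iff.1 h3).2)).1 rfl
  · constructor
    · intro h1
      exact absurd h1 (by simp)
    · intro h1
      exact absurd ⟨v, h1⟩ h

theorem Smj_F_clique {G : SimpleGraph (Fin N)} {K : Finset (Fin k × Fin N)} (hK : Smj_ok G K) :
    IsPartialClique G (Smj_F K) := by
  intro i j u v hij hu hv
  rw [Smj_F_iff hK] at hu hv
  exact (hK _ hu _ hv (fun h => hij (Prod.ext_iff.1 h).1)).2

/-- Moebius inversion: the coefficients of a set function. -/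
noncomputable def Smj_mob {X : Type} [DecidableEq X] (φ : Finset X → ℝ) (S : Finset X) : ℝ :=
  ∑ T ∈ S.powerset, (-1 : ℝ) ^ (S \ T).card * φ T

theorem Smj_mob_sum {X : Type} [Fintype X] [DecidableEq X] (φ : Finset X → ℝ) (J : Finset X) :
    ∑ S ∈ J.powerset, Smj_mob φ S = φ J := by
  unfold Smj_mob
  have h1 : ∀ S ∈ J.powerset, ∑ T ∈ S.powerset, (-1 : ℝ) ^ (S \ T).card * φ T =
      ∑ T ∈ J.powerset, (if T ⊆ S then (-1 : ℝ) ^ (S \ T).card else 0) * φ T := by
    intro S hS
    rw [mem_powerset] at hS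
    rw [← Finset.sum_subset (powerset_mono.2 hS)]
    · refine Finset.sum_congr rfl fun T hT => ?_
      rw [if_pos (mem_powerset.1 hT)]
    · intro T _ hT
      rw [mem_powerset] at hT
      rw [if_neg hT, zero_mul]
  rw [Finset.sum_congr rfl h1, Finset.sum_comm]
  have h2 : ∀ T ∈ J.powerset, ∑ S ∈ J.powerset, (if T ⊆ S then (-1 : ℝ) ^ (S \ T).card else 0) * φ T =
      if T = J then φ T else 0 := by
    intro T hT
    rw [mem_powerset] at hT
    rw [← Finset.sum_mul]
    have h3 : ∑ S ∈ J.powerset, (if T ⊆ S then (-1 : ℝ) ^ (S \ T).card else 0) =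
        ∑ R ∈ (J \ T).powerset, (-1 : ℝ) ^ R.card := by
      rw [← Finset.sum_filter]
      refine Finset.sum_bij' (fun S _ => S \ T) (fun R _ => T ∪ R) ?_ ?_ ?_ ?_ ?_
      · intro S hS
        rw [mem_filter, mem_powerset] at hS
        rw [mem_powerset]
        exact sdiff_subset_sdiff hS.1 (Subset.refl _)
      · intro R hR
        rw [mem_powerset] at hR
        rw [mem_filter, mem_powerset]
        exact ⟨union_subset hT (hR.trans sdiff_subset), subset_union_left⟩
      · intro S hS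
        rw [mem_filter, mem_powerset] at hS
        exact union_sdiff_of_subset hS.2
      · intro R hR
        rw [mem_powerset] at hR
        ext x
        simp only [mem_sdiff, mem_union]
        constructor
        · rintro ⟨h | h, h'⟩
          · exact absurd h h'
          · exact h
        · intro h
          exact ⟨Or.inr h, (mem_sdiff.1 (hR h)).2⟩
      · intro S _
        rfl
    rw [h3]
    have h4 := Finset.sum_powerset_neg_one_pow_card (x := J \ T)
    have h5 : ∑ R ∈ (J \ T).powerset, (-1 : ℝ) ^ R.card = ((∑ R ∈ (J \ T).powerset, (-1 : ℤ) ^ R.card : ℤ) : ℝ) := by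
      push_cast
      rfl
    rw [h5, h4]
    by_cases h6 : T = J
    · subst h6
      simp
    · rw [if_neg h6, if_neg]
      · simp
      · intro h7
        rw [sdiff_eq_empty_iff_subset] at h7
        exact h6 (Subset.antisymm hT h7)
  rw [Finset.sum_congr rfl h2, Finset.sum_ite_eq', if_pos (mem_powerset_self J)]

/-- A function that sees few vertices is a polynomial of low degree on the partial cliques inside `U`. -/
theorem Smj_low (G : SimpleGraph (Fin N)) (s : ℕ) (U : Finset (Fin N)) (P W : Finset (Fin N))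
    (g : (Fin k → Option (Fin N)) → ℝ) (hg : Sees P W g) (hU : P ⊆ U → (P ∪ (W ∩ U)).card < s) :
    ∃ c : Finset (Fin k × Fin N) → ℝ, (∀ S, s ≤ S.card → c S = 0) ∧
      ∀ K : Finset (Fin k × Fin N), vim K ⊆ U → Smj_ok G K → g (Smj_F K) = ∑ S, c S * Gen_i S K := by
  classical
  by_cases hP : P ⊆ U
  · set D : Finset (Fin k × Fin N) := univ ×ˢ (P ∪ (W ∩ U)) with hD
    set φ : Finset (Fin k × Fin N) → ℝ := fun J => g (Smj_F J) with hφ
    refine ⟨fun S => if Inj S ∧ S ⊆ D then Smj_mob φ S else 0, fun S hS => ?_, fun K hK hok => ?_⟩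
    · refine if_neg ?_
      rintro ⟨hI, hSD⟩
      have h3 : S.card ≤ (P ∪ (W ∩ U)).card := by
        rw [← hI.card_vim]
        refine card_le_card ?_
        intro v hv
        rw [mem_vim] at hv
        obtain ⟨i, hi⟩ := hv
        exact (mem_product.1 (hSD hi)).2
      have h4 := hU hP
      omega
    · have hInj : ∀ S ⊆ K, Inj S := by
        intro S hS x hx y hy hxy
        have h2 := hok x (hS hx) y (hS hy) hxy
        exact ⟨h2.1, h2.2.ne⟩
      have h0 : ∀ S, (if Inj S ∧ S ⊆ D then Smj_mob φ S else 0) * Gen_i S K =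
          if S ⊆ K ∩ D then Smj_mob φ S else 0 := by
        intro S
        unfold Gen_i
        by_cases h1 : S ⊆ K
        · by_cases h2 : S ⊆ D
          · rw [if_pos ⟨hInj S h1, h2⟩, if_pos h1, if_pos (subset_inter h1 h2), mul_one]
          · rw [if_neg (fun h => h2 h.2), zero_mul, if_neg (fun h => h2 (h.trans inter_subset_right))]
        · rw [if_neg h1, mul_zero, if_neg (fun h => h1 (h.trans inter_subset_left))]
      show _ = ∑ S, (if Inj S ∧ S ⊆ D then Smj_mob φ S else 0) * Gen_i S K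
      rw [Finset.sum_congr rfl fun S _ => h0 S, ← Finset.sum_filter]
      have h3 : (univ : Finset (Finset (Fin k × Fin N))).filter (fun S => S ⊆ K ∩ D) = (K ∩ D).powerset := by
        ext J
        rw [mem_filter, mem_powerset]
        exact ⟨fun h => h.2, fun h => ⟨mem_univ _, h⟩⟩
      rw [h3, Smj_mob_sum]
      show g (Smj_F K) = g (Smj_F (K ∩ D))
      have hok2 : Smj_ok G (K ∩ D) :=
        fun x hx y hy => hok x (inter_subset_left hx) y (inter_subset_left hy)
      refine hg.2 _ _ ?_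
      intro i v hv
      rw [Smj_F_iff hok, Smj_F_iff hok2]
      constructor
      · intro h
        refine mem_inter.2 ⟨h, ?_⟩
        rw [hD, mem_product]
        have hvU : v ∈ U := hK ((mem_vim K v).2 ⟨i, h⟩)
        refine ⟨mem_univ _, ?_⟩
        rcases mem_union.1 hv with h2 | h2
        · exact mem_union_left _ h2
        · exact mem_union_right _ (mem_inter.2 ⟨h2, hvU⟩)
      · intro h
        exact (mem_inter.1 h).1
  · refine ⟨fun _ => 0, fun _ _ => rfl, fun K hK hok => ?_⟩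
    rw [hg.1]
    · simp
    · by_contra hcon
      push Not at hcon
      apply hP
      intro v hv
      obtain ⟨i, hi⟩ := hcon v hv
      exact hK ((mem_vim K v).2 ⟨i, (Smj_F_iff hok i v).1 hi⟩)

theorem Smj_lin (G : SimpleGraph (Fin N)) (s : ℕ) (U : Finset (Fin N)) {R : ℕ} (P : Fin R → Finset (Fin N))
    (W : Fin R → Finset (Fin N)) (g : Fin R → (Fin k → Option (Fin N)) → ℝ) (hg : ∀ t, Sees (P t) (W t) (g t))
    (hU : ∀ t, P t ⊆ U → (P t ∪ (W t ∩ U)).card < s) (α : Fin R → ℝ) :
    ∃ c : Finset (Fin k × Fin N) → ℝ, (∀ S, s ≤ S.card → c S = 0) ∧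
      ∀ K : Finset (Fin k × Fin N), vim K ⊆ U → Smj_ok G K →
        ∑ t, α t * g t (Smj_F K) = ∑ S, c S * Gen_i S K := by
  choose c hc hcK using fun t => Smj_low G s U (P t) (W t) (g t) (hg t) (hU t)
  refine ⟨fun S => ∑ t, α t * c t S, fun S hS => ?_, fun K hK hok => ?_⟩
  · exact Finset.sum_eq_zero fun t _ => by rw [hc t S hS, mul_zero]
  · have h1 : ∀ S, (∑ t, α t * c t S) * Gen_i S K = ∑ t, α t * (c t S * Gen_i S K) := by
      intro S
      rw [Finset.sum_mul]
      exact Finset.sum_congr rfl fun t _ => by ring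
    rw [Finset.sum_congr rfl fun S _ => h1 S, Finset.sum_comm]
    refine Finset.sum_congr rfl fun t _ => ?_
    rw [hcK t K hK hok, Finset.mul_sum]

theorem Smj_some {G : SimpleGraph (Fin N)} {K : Finset (Fin k × Fin N)} (hK : Smj_ok G K) (j : Fin k) :
    (if (Smj_F K j).isSome then (1 : ℝ) else 0) = ∑ v, Gen_i {(j, v)} K := by
  unfold Gen_i
  simp only [singleton_subset_iff]
  by_cases h : ∃ v, (j, v) ∈ K
  · obtain ⟨v, hv⟩ := h
    have h1 := (Smj_F_iff hK j v).2 hv
    rw [h1, Option.isSome_some, if_pos rfl, Finset.sum_eq_single v]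
    · rw [if_pos hv]
    · intro w _ hw
      rw [if_neg]
      intro h2
      exact (hK _ h2 _ hv (fun h3 => hw (Prod.ext_iff.1 h3).2)).1 rfl
    · intro h2
      exact absurd (mem_univ _) h2
  · rw [if_neg, Finset.sum_eq_zero]
    · intro v _
      rw [if_neg (fun h2 => h ⟨v, h2⟩)]
    · intro h2
      rw [Option.isSome_iff_exists] at h2
      obtain ⟨v, hv⟩ := h2
      exact h ⟨v, (Smj_F_iff hK j v).1 hv⟩

theorem Smj_main (G : SimpleGraph (Fin N)) (s : ℕ) (hs : 1 ≤ s) (U : Finset (Fin N))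
    (E : Finset (Fin k × Fin N) → ℝ) (h1 : E ∅ = 1)
    (hlin : ∀ f : Finset (Fin k × Fin N), f.card < 2 * s → ∀ j : Fin k, ∑ v, E (insert (j, v) f) = E f)
    (hadj : ∀ (f : Finset (Fin k × Fin N)) (x y : Fin k × Fin N), x ∈ f → y ∈ f → x ≠ y →
      ¬ (x.1 ≠ y.1 ∧ G.Adj x.2 y.2) → E f = 0)
    (hout : ∀ f : Finset (Fin k × Fin N), ¬ vim f ⊆ U → E f = 0)
    (hpsd : ∀ c : Finset (Fin k × Fin N) → ℝ, (∀ f, s < f.card → c f = 0) →
      0 ≤ ∑ f, ∑ g, c f * c g * E (f ∪ g))
    {R : ℕ} (P W : Fin R → Finset (Fin N))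
    (g : Fin R → (Fin k → Option (Fin N)) → ℝ) (hg : ∀ t, Sees (P t) (W t) (g t))
    (hU : ∀ t, P t ⊆ U → (P t ∪ (W t ∩ U)).card < s) : ¬ SosRefutation G g := by
  classical
  rintro ⟨m, q, a, h⟩
  set UU : Finset (Fin k × Fin N) := univ ×ˢ U with hUU
  have hsub : ∀ f : Finset (Fin k × Fin N), f ⊆ UU ↔ vim f ⊆ U := by
    intro f
    constructor
    · intro hf v hv
      rw [mem_vim] at hv
      obtain ⟨i, hi⟩ := hv
      exact (mem_product.1 (hf hi)).2
    · intro hf x hx
      rw [hUU, mem_product]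
      exact ⟨mem_univ _, hf ((mem_vim f x.2).2 ⟨x.1, hx⟩)⟩
  have hw1 : ∀ K, ¬ K ⊆ UU → Gen_w E K = 0 := by
    intro K hK
    unfold Gen_w
    refine Finset.sum_eq_zero fun S _ => ?_
    split_ifs with h2
    · rw [hout S (fun h3 => hK (h2.trans ((hsub S).2 h3))), mul_zero]
    · rfl
  have hw2 : ∀ K : Finset (Fin k × Fin N), ¬ Smj_ok G K → Gen_w E K = 0 := by
    intro K hK
    unfold Smj_ok at hK
    push Not at hK
    obtain ⟨x, hx, y, hy, hxy, hadj'⟩ := hK
    unfold Gen_w
    refine Finset.sum_eq_zero fun S _ => ?_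
    split_ifs with h2
    · rw [hadj S x y (h2 hx) (h2 hy) hxy (fun h3 => hadj' h3.1 h3.2), mul_zero]
    · rfl
  -- the squares
  have hsq : ∀ i, 0 ≤ ∑ K, Gen_w E K * (∑ t, q i t * g t (Smj_F K)) ^ 2 := by
    intro i
    obtain ⟨c, hc, hcK⟩ := Smj_lin G s U P W g hg hU (q i)
    have h2 : ∀ K, Gen_w E K * (∑ t, q i t * g t (Smj_F K)) ^ 2 =
        ∑ S, ∑ T, c S * c T * (Gen_w E K * Gen_i (S ∪ T) K) := by
      intro K
      by_cases hK : K ⊆ UU ∧ Smj_ok G K
      · rw [hcK K ((hsub K).1 hK.1) hK.2, sq, Finset.sum_mul_sum, Finset.mul_sum]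
        refine Finset.sum_congr rfl fun S _ => ?_
        rw [Finset.mul_sum]
        refine Finset.sum_congr rfl fun T _ => ?_
        rw [← Gen_mul]
        ring
      · have h3 : Gen_w E K = 0 := by
          by_cases h4 : K ⊆ UU
          · exact hw2 K (fun h5 => hK ⟨h4, h5⟩)
          · exact hw1 K h4
        rw [h3]
        simp
    rw [Finset.sum_congr rfl fun K _ => h2 K, Finset.sum_comm]
    have h3 : ∀ S, ∑ K, ∑ T, c S * c T * (Gen_w E K * Gen_i (S ∪ T) K) = ∑ T, c S * c T * E (S ∪ T) := by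
      intro S
      rw [Finset.sum_comm]
      refine Finset.sum_congr rfl fun T _ => ?_
      rw [← Finset.mul_sum, Gen_inv]
    rw [Finset.sum_congr rfl fun S _ => h3 S]
    exact hpsd c (fun S hS => hc S hS.le)
  -- the linear constraints
  have hli : ∀ j : Fin k, ∑ K, Gen_w E K * ((∑ t, a j t * g t (Smj_F K)) * (∑ v, Gen_i {(j, v)} K - 1)) = 0 := by
    intro j
    obtain ⟨c, hc, hcK⟩ := Smj_lin G s U P W g hg hU (a j)
    have h2 : ∀ K, Gen_w E K * ((∑ t, a j t * g t (Smj_F K)) * (∑ v, Gen_i {(j, v)} K - 1)) =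
        ∑ S, c S * (∑ v, Gen_w E K * Gen_i (insert (j, v) S) K - (Gen_w E K * Gen_i S K)) := by
      intro K
      by_cases hK : K ⊆ UU ∧ Smj_ok G K
      · rw [hcK K ((hsub K).1 hK.1) hK.2, Finset.sum_mul, Finset.mul_sum]
        refine Finset.sum_congr rfl fun S _ => ?_
        have h3 : ∑ v, Gen_w E K * Gen_i (insert (j, v) S) K = Gen_w E K * (Gen_i S K * ∑ v, Gen_i {(j, v)} K) := by
          rw [Finset.mul_sum, Finset.mul_sum]
          refine Finset.sum_congr rfl fun v _ => ?_
          rw [Gen_mul, union_comm, ← insert_eq]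
        rw [h3]
        ring
      · have h3 : Gen_w E K = 0 := by
          by_cases h4 : K ⊆ UU
          · exact hw2 K (fun h5 => hK ⟨h4, h5⟩)
          · exact hw1 K h4
        rw [h3]
        simp
    rw [Finset.sum_congr rfl fun K _ => h2 K, Finset.sum_comm]
    refine Finset.sum_eq_zero fun S _ => ?_
    rw [← Finset.mul_sum]
    by_cases hS : s ≤ S.card
    · rw [hc S hS, zero_mul]
    · rw [Finset.sum_sub_distrib, Finset.sum_comm, Gen_inv]
      have h4 : ∀ v, ∑ K, Gen_w E K * Gen_i (insert (j, v) S) K = E (insert (j, v) S) := fun v => Gen_inv E _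
      rw [Finset.sum_congr rfl fun v _ => h4 v, hlin S (by omega) j]
      ring
  have hall : ∑ K, Gen_w E K * (∑ i, (∑ t, q i t * g t (Smj_F K)) ^ 2 +
      ∑ j, (∑ t, a j t * g t (Smj_F K)) * (∑ v, Gen_i {(j, v)} K - 1)) = ∑ K, Gen_w E K * (-1) := by
    refine Finset.sum_congr rfl fun K _ => ?_
    by_cases hK : Smj_ok G K
    · have h2 := h (Smj_F K) (Smj_F_clique hK)
      simp only [Smj_some hK] at h2
      rw [h2]
    · rw [hw2 K hK]
      simp
  have hone : ∑ K, Gen_w E K = 1 := by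
    have h2 := Gen_inv E ∅
    rw [h1] at h2
    rw [← h2]
    refine Finset.sum_congr rfl fun K _ => ?_
    simp [Gen_i]
  have hexp : ∑ K, Gen_w E K * (∑ i, (∑ t, q i t * g t (Smj_F K)) ^ 2 +
      ∑ j, (∑ t, a j t * g t (Smj_F K)) * (∑ v, Gen_i {(j, v)} K - 1)) =
      ∑ i, ∑ K, Gen_w E K * (∑ t, q i t * g t (Smj_F K)) ^ 2 +
      ∑ j, ∑ K, Gen_w E K * ((∑ t, a j t * g t (Smj_F K)) * (∑ v, Gen_i {(j, v)} K - 1)) := by
    rw [Finset.sum_comm, Finset.sum_comm (s := (univ : Finset (Fin k))), ← Finset.sum_add_distrib]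
    refine Finset.sum_congr rfl fun K _ => ?_
    rw [mul_add, Finset.mul_sum, Finset.mul_sum]
  rw [hexp, Finset.sum_eq_zero (s := (univ : Finset (Fin k))) (fun j _ => hli j), add_zero] at hall
  have h9 : 0 ≤ ∑ i, ∑ K, Gen_w E K * (∑ t, q i t * g t (Smj_F K)) ^ 2 := Finset.sum_nonneg fun i _ => hsq i
  rw [← Finset.sum_mul, hone] at hall
  linarith

end Pool.Agent.H9.SI
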