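import Pool.Agent.H9.SQ.FinS
import Pool.Agent.H9.SI.Smj
import Pool.Agent.H9.SI.Lft
import Pool.Agent.H9.SI.Lic

/-!
Module Fnj.  The theorem for the k-clique formula and arbitrary functions.
-/

set_option autoImplicit false
set_option linter.unusedSectionVars false

open Finset

namespace Pool.Agent.H9.SI

open Pool.Agent.H9.KR Pool.Agent.H9.SQ

theorem Fnj_det {N : ℕ} (G : SimpleGraph (Fin N)) (n r k s : ℕ) (p ε τ χ : ℝ) (H : Num n r k p ε τ χ)
    (hs : 1 ≤ s) (hsr : 2 * s ≤ r) (hkN : k ≤ N)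
    (U : Finset (Fin N)) (h : Reg G U n p ε (4 * r))
    {R : ℕ} (P W : Fin R → Finset (Fin N))
    (g : Fin R → (Fin k → Option (Fin N)) → ℝ) (hg : ∀ t, Sees (P t) (W t) (g t))
    (hU : ∀ t, P t ⊆ U → (P t ∪ (W t ∩ U)).card < s) : ¬ SosRefutation G g := by
  have hk := H.k_ge
  have hlin : ∀ S : Finset (Fin N), S.card < 2 * r →
      ∑ v ∈ univ \ S, Ez G U k (2 * r) (insert v S) = ((k : ℝ) - S.card) * Ez G U k (2 * r) S :=
    fun S hS => Lin_main G U k (2 * r) hk S hS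
  refine Smj_main G s hs U (Ey (Ez G U k (2 * r))) ?_ ?_ ?_ ?_ ?_ P W g hg hU
  · rw [Lic_one, Lin_one G U k (2 * r) (Psd_pos H h)]
  · exact fun f hf j => Lic_lin _ (2 * r) hk hlin f (by omega) j
  · exact fun f x y hx hy hxy hn => Lic_adj G _ (fun S u v hu hv huv hadj =>
      Lin_adj G U k (2 * r) S u v hu hv huv hadj) f x y hx hy hxy hn
  · exact fun f hf => Lic_out U _ (fun S hS => Lin_out G U k (2 * r) S hS) f hf
  · exact fun c hc => Lft_main _ k s r (by omega) hsr hk (by rw [Fintype.card_fin]; exact hkN) hlin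
      (fun c hc => Psd_main H h c hc) c hc

theorem Fnj_main (e r s k N : ℕ) (p : unitInterval) (he : 1 ≤ e) (hs : 1 ≤ s) (hsr : 2 * s ≤ r) (hk : 2 * r ≤ k)
    (hA : (e * k.choose r) ^ (100 * e) ≤ N) (hp : 1 ≤ N * (p : ℝ) ^ (100 * e * r)) :
    (SimpleGraph.binomialRandom (Fin N) p).real {G |
      ∃ (R : ℕ) (P W : Fin R → Finset (Fin N))
        (g : Fin R → (Fin k → Option (Fin N)) → ℝ), SosRefutation G g ∧ (∀ t, Sees (P t) (W t) (g t)) ∧
        (∀ t, (P t).card * e < s → (W t).card ^ e ≤ N ^ (e - 1)) ∧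
        (univ.filter (fun t => s ≤ (P t ∪ W t).card)).card ^ (4 * e) ≤ N ^ s} ≤ 1 / N := by
  have hp0 : (0 : ℝ) ≤ (p : ℝ) := p.2.1
  have hp1 : (p : ℝ) ≤ 1 := p.2.2
  obtain ⟨n, ε, τ, χ, H, hn, hN, hε1, hz, hpr⟩ := Nmb_main N e r k p he (by omega) hk hA hp0 hp1 hp
  have hN0 : (0 : ℝ) < N := by
    have : 0 < N := lt_of_le_of_lt (Nat.zero_le _) hN
    exact_mod_cast this
  have hnN : n ≤ N := (Nat.le_self_pow (by omega) n).trans hn
  have hkN : k ≤ N := by
    have h1 := H.ρ_le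
    have h2 := H.p_pos
    have h3 := H.n_pos
    have h4 : (0 : ℝ) < n * (p : ℝ) ^ r := by
      have : (0 : ℝ) < n := by exact_mod_cast h3
      positivity
    have h5 : (1 : ℝ) ≤ r := by exact_mod_cast H.r_pos
    have h6 : (k : ℝ) / (n * (p : ℝ) ^ r) ≤ 1 := by
      have h7 : (0 : ℝ) ≤ (k : ℝ) / (n * (p : ℝ) ^ r) := by positivity
      nlinarith
    rw [div_le_one h4] at h6
    have h8 : (n : ℝ) * (p : ℝ) ^ r ≤ n := by
      have h9 : (p : ℝ) ^ r ≤ 1 := pow_le_one₀ hp0 hp1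
      have : (0 : ℝ) ≤ n := by positivity
      nlinarith
    have h10 : (k : ℝ) ≤ n := h6.trans h8
    exact (Nat.cast_le.1 h10).trans hnN
  have hw : ∀ G : SimpleGraph (Fin N), 0 ≤ (SimpleGraph.binomialRandom (Fin N) p).real {G} :=
    fun G => MeasureTheory.measureReal_nonneg
  rw [real_eq_pr]
  have h1 := Avg_markov (fun G : SimpleGraph (Fin N) => (SimpleGraph.binomialRandom (Fin N) p).real {G}) hw hnN
    (fun G U => ¬ Reg G U n (p : ℝ) ε (4 * r)) (1 / (2 * N))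
    (fun U hU => (Rgp_main p U n (4 * r) hU ε H.ε_pos hε1 hz).trans hpr)
  have h2 : 2 * (1 / (2 * (N : ℝ))) = 1 / N := by
    field_simp
  rw [h2] at h1
  refine le_trans (pr_mono hw ?_) h1
  rintro G ⟨R, P, W, g, hR, hg, hQ, hM⟩
  by_contra hcon
  push Not at hcon
  have hQ' : ∀ t ∈ univ.image (fun t => (P t, W t)), t.1.card * e < s → t.2.card ^ e ≤ N ^ (e - 1) := by
    intro t ht
    obtain ⟨t', _, rfl⟩ := mem_image.1 ht
    exact hQ t'
  have hM' : ((univ.image (fun t => (P t, W t))).filter (fun t => s ≤ (t.1 ∪ t.2).card)).card ^ (4 * e) ≤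
      N ^ s := by
    refine le_trans (Nat.pow_le_pow_left ?_ _) hM
    refine le_trans (card_le_card (t := (univ.filter (fun t => s ≤ (P t ∪ W t).card)).image
      (fun t => (P t, W t))) ?_) card_image_le
    intro t ht
    obtain ⟨ht1, ht2⟩ := mem_filter.1 ht
    obtain ⟨t', _, rfl⟩ := mem_image.1 ht1
    exact mem_image.2 ⟨t', mem_filter.2 ⟨mem_univ _, ht2⟩, rfl⟩
  obtain ⟨U, hU, hreg, hUM⟩ := Pix_main he hs hn hN (fun U => ¬ Reg G U n (p : ℝ) ε (4 * r)) hcon _ hQ' hM'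
  refine Fnj_det G n r k s p ε τ χ H hs hsr hkN U (not_not.1 hreg) P W g hg ?_ hR
  intro t ht1
  exact hUM _ (mem_image_of_mem _ (mem_univ t)) ht1

end Pool.Agent.H9.SI
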