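import Pool.Agent.H9.SI.Defs

/-!
Module Prm.  The number of permutations that extend a partial injection.
If `f` is not `Inj` there is none (two pairs with the same first, or the same second coordinate).  If `Inj f` there are `(k - f.card)!` of them: the complements of the sets of first and of second coordinates both have `k - f.card` elements and the permutations
correspond to the bijections between them; or induction on `f.card`: for `f` with `f.card < k` pick an index `i` not in `f`; the permutations that extend `f` are the disjoint union, over the `k - f.card` values `v` not in `vim f`, of those that extend `insert (i, v) f`.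
-/

set_option autoImplicit false
set_option linter.unusedSectionVars false

open Finset

namespace Pool.Agent.H9.SI

theorem Prm_exists {k : ℕ} {f : Finset (Fin k × Fin k)} (hf : Inj f) :
    ∃ σ : Equiv.Perm (Fin k), ∀ x ∈ f, σ x.1 = x.2 := by
  classical
  let g : Fin k → Fin k := fun i => if h : ∃ v, (i, v) ∈ f then h.choose else i
  have hg : ∀ x ∈ f, g x.1 = x.2 := by
    intro x hx
    have h : ∃ v, (x.1, v) ∈ f := ⟨x.2, hx⟩
    have h1 : g x.1 = h.choose := dif_pos h
    rw [h1]
    have h2 : (x.1, h.choose) ∈ f := h.choose_spec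
    by_contra hne
    have h3 : (x.1, h.choose) ≠ x := fun h4 => hne (congrArg Prod.snd h4)
    exact (hf _ h2 _ hx h3).1 rfl
  have hinj : Set.InjOn g (f.image Prod.fst : Finset (Fin k)) := by
    intro a ha b hb hab
    rw [Finset.mem_coe, Finset.mem_image] at ha hb
    obtain ⟨x, hx, rfl⟩ := ha
    obtain ⟨y, hy, rfl⟩ := hb
    rw [hg x hx, hg y hy] at hab
    by_contra hne
    have h3 : x ≠ y := fun h4 => hne (congrArg Prod.fst h4)
    exact (hf x hx y hy h3).2 hab
  obtain ⟨e, he⟩ := Finset.exists_equiv_extend_of_card_eq (α := Fin k) (β := Fin k)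
    (t := Finset.univ) (by simp) (s := f.image Prod.fst) (f := g) (Finset.subset_univ _) hinj
  refine ⟨e.trans (Equiv.subtypeUnivEquiv (fun x => Finset.mem_univ x)), fun x hx => ?_⟩
  have h1 := he x.1 (Finset.mem_image_of_mem _ hx)
  rw [Equiv.trans_apply]
  show ((e x.1 : { x // x ∈ Finset.univ }) : Fin k) = x.2
  rw [h1, hg x hx]

theorem Prm_card {k : ℕ} {f : Finset (Fin k × Fin k)} (hf : Inj f) :
    ((univ : Finset (Equiv.Perm (Fin k))).filter (fun π => ∀ x ∈ f, π x.1 = x.2)).card
      = (k - f.card).factorial := by
  classical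
  obtain ⟨σ, hσ⟩ := Prm_exists hf
  rw [← Fintype.card_subtype]
  let D : Finset (Fin k) := f.image Prod.fst
  have e1 : {π : Equiv.Perm (Fin k) // ∀ x ∈ f, π x.1 = x.2} ≃
      {τ : Equiv.Perm (Fin k) // ∀ a, ¬ (a ∉ D) → τ a = a} :=
    { toFun := fun π => ⟨π.1.trans σ.symm, fun a ha => by
        rw [not_not] at ha
        obtain ⟨x, hx, rfl⟩ := Finset.mem_image.1 ha
        rw [Equiv.trans_apply, π.2 x hx, ← hσ x hx, Equiv.symm_apply_apply]⟩
      invFun := fun τ => ⟨τ.1.trans σ, fun x hx => by
        rw [Equiv.trans_apply, τ.2 x.1 (not_not.2 (Finset.mem_image_of_mem _ hx)), hσ x hx]⟩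
      left_inv := fun π => by
        apply Subtype.ext
        ext a
        simp
      right_inv := fun τ => by
        apply Subtype.ext
        ext a
        simp }
  have hD : D.card = f.card := by
    refine Finset.card_image_of_injOn fun x hx y hy hxy => ?_
    by_contra hne
    exact (hf x hx y hy hne).1 hxy
  rw [Fintype.card_congr e1, ← Fintype.card_congr (Equiv.Perm.subtypeEquivSubtypePerm (fun a => a ∉ D)),
    Fintype.card_perm]
  congr 1
  rw [Fintype.card_subtype_compl, Fintype.card_fin, Fintype.card_coe, hD]

theorem Prm_main {k : ℕ} (f : Finset (Fin k × Fin k)) :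
    (((univ : Finset (Equiv.Perm (Fin k))).filter (fun π => ∀ x ∈ f, π x.1 = x.2)).card : ℝ) / (k.factorial : ℝ) = yw f := by
  classical
  by_cases hf : Inj f
  · rw [Prm_card hf, yw, if_pos hf]
  · rw [yw, if_neg hf]
    have h : (univ : Finset (Equiv.Perm (Fin k))).filter (fun π => ∀ x ∈ f, π x.1 = x.2) = ∅ := by
      rw [Finset.filter_eq_empty_iff]
      intro π _ hπ
      apply hf
      intro x hx y hy hne
      constructor
      · intro h1
        apply hne
        apply Prod.ext h1
        rw [← hπ x hx, ← hπ y hy, h1]
      · intro h2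
        apply hne
        have h1 : x.1 = y.1 := by
          apply π.injective
          rw [hπ x hx, hπ y hy, h2]
        exact Prod.ext h1 h2
    rw [h, Finset.card_empty, Nat.cast_zero, zero_div]

end Pool.Agent.H9.SI
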