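import Pool.Agent.H9.SI.Sqr
import Pool.Agent.H9.SI.Prm

/-!
Module Gra.  Use only the STATEMENTS of `Sqr_main` and `Prm_main`.
`Y f g = if f.card ≤ s ∧ g.card ≤ s then yw (f ∪ g) else 0` is positive semidefinite: it is the Gram matrix `(1 / k!) ∑ π, a f π * a g π` with `a f π = if f.card ≤ s ∧ (∀ x ∈ f, π x.1 = x.2) then 1 else 0`.  It is invariant under `mv τ` (an `Equiv.Perm` of
`Finset (Fin k × Fin k)` with inverse `mv τ⁻¹`; `yw (mv τ f) = yw f`).  Take `κ` from `Sqr_main`.  If `s < h.card` then `∑ l, κ h l ^ 2 = Y h h = 0`, so `κ h l = 0` for all `l`, and `κ f h = κ h f = 0`.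
-/

set_option autoImplicit false
set_option linter.unusedSectionVars false

open Finset

namespace Pool.Agent.H9.SI

theorem Gra_inj {k : ℕ} (τ : Equiv.Perm (Fin k)) :
    Function.Injective (Prod.map id τ : Fin k × Fin k → Fin k × Fin k) :=
  Function.Injective.prodMap Function.injective_id τ.injective

theorem Gra_card {k : ℕ} (τ : Equiv.Perm (Fin k)) (f : Finset (Fin k × Fin k)) : (mv τ f).card = f.card :=
  card_image_of_injective _ (Gra_inj τ)

theorem Gra_mvmv {k : ℕ} (σ τ : Equiv.Perm (Fin k)) (f : Finset (Fin k × Fin k)) :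
    mv σ (mv τ f) = mv (σ * τ : Equiv.Perm (Fin k)) f := by
  unfold mv
  rw [image_image]
  rfl

theorem Gra_mvone {k : ℕ} (f : Finset (Fin k × Fin k)) : mv (1 : Equiv.Perm (Fin k)) f = f := by
  unfold mv
  have : (Prod.map id ((1 : Equiv.Perm (Fin k)) : Fin k → Fin k) : Fin k × Fin k → Fin k × Fin k) = id := by
    ext x <;> rfl
  rw [this, image_id]

theorem Gra_Inj {k : ℕ} (τ : Equiv.Perm (Fin k)) (f : Finset (Fin k × Fin k)) : Inj (mv τ f) ↔ Inj f := by
  have key : ∀ (σ : Equiv.Perm (Fin k)) (g : Finset (Fin k × Fin k)), Inj g → Inj (mv σ g) := by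
    intro σ g hg x hx y hy hxy
    unfold mv at hx hy
    rw [mem_image] at hx hy
    obtain ⟨x', hx', rfl⟩ := hx
    obtain ⟨y', hy', rfl⟩ := hy
    have hne : x' ≠ y' := fun h => hxy (by rw [h])
    obtain ⟨h1, h2⟩ := hg x' hx' y' hy' hne
    exact ⟨h1, fun h => h2 (σ.injective h)⟩
  constructor
  · intro h
    have h2 := key τ⁻¹ _ h
    rw [Gra_mvmv, inv_mul_cancel, Gra_mvone] at h2
    exact h2
  · exact key τ f

theorem Gra_yw {k : ℕ} (τ : Equiv.Perm (Fin k)) (f : Finset (Fin k × Fin k)) : yw (mv τ f) = yw f := by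
  unfold yw
  rw [Gra_card]
  by_cases h : Inj f
  · rw [if_pos h, if_pos ((Gra_Inj τ f).2 h)]
  · rw [if_neg h, if_neg (fun h2 => h ((Gra_Inj τ f).1 h2))]

theorem Gra_main (k s : ℕ) : ∃ κ : Finset (Fin k × Fin k) → Finset (Fin k × Fin k) → ℝ,
    (∀ (τ : Equiv.Perm (Fin k)) (f h : Finset (Fin k × Fin k)), κ (mv τ f) (mv τ h) = κ f h) ∧
    (∀ f g : Finset (Fin k × Fin k), f.card ≤ s → g.card ≤ s → ∑ h, κ f h * κ g h = yw (f ∪ g)) ∧
    (∀ f h : Finset (Fin k × Fin k), s < h.card → κ f h = 0) := by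
  classical
  set Y : Matrix (Finset (Fin k × Fin k)) (Finset (Fin k × Fin k)) ℝ :=
    fun f g => if f.card ≤ s ∧ g.card ≤ s then yw (f ∪ g) else 0 with hYdef
  set A : Matrix (Equiv.Perm (Fin k)) (Finset (Fin k × Fin k)) ℝ :=
    fun π f => if f.card ≤ s ∧ (∀ x ∈ f, π x.1 = x.2) then 1 else 0 with hAdef
  have hYA : Y = (1 / (k.factorial : ℝ)) • (A.conjTranspose * A) := by
    ext f g
    rw [Matrix.smul_apply, Matrix.mul_apply, smul_eq_mul]
    have h1 : ∑ π, A.conjTranspose f π * A π g = if f.card ≤ s ∧ g.card ≤ s then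
        (((univ : Finset (Equiv.Perm (Fin k))).filter (fun π => ∀ x ∈ f ∪ g, π x.1 = x.2)).card : ℝ) else 0 := by
      split_ifs with h
      · rw [Finset.card_filter]
        push_cast
        refine Finset.sum_congr rfl fun π _ => ?_
        rw [Matrix.conjTranspose_apply, star_trivial]
        simp only [hAdef, h.1, h.2, true_and]
        by_cases hf : ∀ x ∈ f, π x.1 = x.2 <;> by_cases hg : ∀ x ∈ g, π x.1 = x.2
        · rw [if_pos hf, if_pos hg, if_pos]
          · ring
          · intro x hx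
            rcases mem_union.1 hx with h2 | h2
            · exact hf x h2
            · exact hg x h2
        · rw [if_neg hg, mul_zero, if_neg]
          exact fun h2 => hg (fun x hx => h2 x (mem_union_right _ hx))
        · rw [if_neg hf, zero_mul, if_neg]
          exact fun h2 => hf (fun x hx => h2 x (mem_union_left _ hx))
        · rw [if_neg hf, zero_mul, if_neg]
          exact fun h2 => hf (fun x hx => h2 x (mem_union_left _ hx))
      · refine Finset.sum_eq_zero fun π _ => ?_
        rw [Matrix.conjTranspose_apply, star_trivial]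
        by_cases hf : f.card ≤ s
        · have hg : ¬ g.card ≤ s := fun hg => h ⟨hf, hg⟩
          have : A π g = 0 := if_neg (fun h2 => hg h2.1)
          rw [this, mul_zero]
        · have : A π f = 0 := if_neg (fun h2 => hf h2.1)
          rw [this, zero_mul]
    rw [h1]
    show (if f.card ≤ s ∧ g.card ≤ s then yw (f ∪ g) else 0) = _
    split_ifs with h
    · rw [← Prm_main]
      ring
    · ring
  have hpsd : Y.PosSemidef := by
    rw [hYA]
    exact (Matrix.posSemidef_conjTranspose_mul_self A).smul (by positivity)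
  obtain ⟨κ, hsym, hsq, hinv⟩ := Sqr_main Y hpsd
  refine ⟨κ, fun τ f h => ?_, fun f g hf hg => ?_, fun f h hh => ?_⟩
  · set σ : Equiv.Perm (Finset (Fin k × Fin k)) :=
      ⟨fun f => mv τ f, fun f => mv (τ⁻¹ : Equiv.Perm (Fin k)) f,
        fun f => by
          show mv (τ⁻¹ : Equiv.Perm (Fin k)) (mv τ f) = f
          rw [Gra_mvmv, inv_mul_cancel, Gra_mvone],
        fun f => by
          show mv τ (mv (τ⁻¹ : Equiv.Perm (Fin k)) f) = f
          rw [Gra_mvmv, mul_inv_cancel, Gra_mvone]⟩ with hσ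
    have h1 : ∀ i j, Y (σ i) (σ j) = Y i j := by
      intro i j
      show (if (mv τ i).card ≤ s ∧ (mv τ j).card ≤ s then yw (mv τ i ∪ mv τ j) else 0) = _
      rw [Gra_card, Gra_card, ← mv_union, Gra_yw]
    exact hinv σ h1 f h
  · rw [hsq]
    exact if_pos ⟨hf, hg⟩
  · have h1 : ∑ l, κ h l * κ h l = 0 := by
      rw [hsq]
      exact if_neg (fun h2 => absurd h2.1 (by omega))
    have h2 := (Finset.sum_eq_zero_iff_of_nonneg (fun l _ => mul_self_nonneg (κ h l))).1 h1 f (mem_univ _)
    rw [hsym f h]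
    exact mul_self_eq_zero.1 h2

end Pool.Agent.H9.SI
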