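import Pool.Agent.H9.SI.Gra
import Pool.Agent.H9.SI.Epe

/-!
Module Ker.  The kernel for an arbitrary vertex set `V`.   Use only the STATEMENTS of `Gra_main` and `Epe_main`.
`κ f h = κ₀ (mv β f) (mv β h)` for some (chosen) `β : V → Fin k` that is injective on `vim f ∪ vim h`, and `κ f h = 0` if there is none.  By `Epe_main` and the invariance of `κ₀` every such `β` gives the same value.  Invariance: replace `β` by `β ∘ τ⁻¹`.
Second property: take `b : V → Fin k` that is injective on `K` (then bijective from `K` onto `Fin k`, as `K.card = k`); `h ↦ mv b h` is a bijection from the subsets of `univ ×ˢ K` to all finsets of `Fin k × Fin k`; `yw (mv b f ∪ mv b g) = yw (f ∪ g)`, `(mv b f).card = f.card`.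
-/

set_option autoImplicit false
set_option linter.unusedSectionVars false

open Finset

namespace Pool.Agent.H9.SI

variable {V : Type} [Fintype V] [DecidableEq V]

theorem Ker_mv_congr {W : Type} [DecidableEq W] {k : ℕ} {f : Finset (Fin k × V)} {β γ : V → W}
    (h : ∀ v ∈ vim f, β v = γ v) : mv β f = mv γ f := by
  unfold mv
  refine Finset.image_congr fun x hx => ?_
  have h1 : x.2 ∈ vim f := Finset.mem_image_of_mem Prod.snd hx
  simp only [Prod.map]
  rw [h _ h1]

theorem Ker_mv_mv {W X : Type} [DecidableEq W] [DecidableEq X] {k : ℕ} (f : Finset (Fin k × V)) (β : V → W)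
    (γ : W → X) : mv γ (mv β f) = mv (fun v => γ (β v)) f := by
  unfold mv
  rw [Finset.image_image]
  rfl

theorem Ker_mv_id {k : ℕ} (f : Finset (Fin k × V)) : mv (fun v : V => v) f = f := by
  unfold mv
  have h : (Prod.map id fun v : V => v) = (fun x : Fin k × V => x) := by
    funext x
    rfl
  rw [h]
  exact Finset.image_id'

theorem Ker_vim_mv {W : Type} [DecidableEq W] {k : ℕ} (f : Finset (Fin k × V)) (β : V → W) :
    vim (mv β f) = (vim f).image β := by
  unfold vim mv
  rw [Finset.image_image, Finset.image_image]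
  rfl

theorem Ker_inj_map {W : Type} [DecidableEq W] {k : ℕ} {f : Finset (Fin k × V)} {β : V → W}
    (hβ : Set.InjOn β (vim f : Set V)) : Set.InjOn (Prod.map id β) (f : Set (Fin k × V)) := by
  intro x hx y hy hxy
  have h1 : (Prod.map id β x).1 = (Prod.map id β y).1 := congrArg Prod.fst hxy
  have h2 : (Prod.map id β x).2 = (Prod.map id β y).2 := congrArg Prod.snd hxy
  change x.1 = y.1 at h1
  change β x.2 = β y.2 at h2
  have hx2 : x.2 ∈ (vim f : Set V) := Finset.mem_coe.2 (Finset.mem_image_of_mem Prod.snd (Finset.mem_coe.1 hx))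
  have hy2 : y.2 ∈ (vim f : Set V) := Finset.mem_coe.2 (Finset.mem_image_of_mem Prod.snd (Finset.mem_coe.1 hy))
  exact Prod.ext h1 (hβ hx2 hy2 h2)

theorem Ker_card_mv {W : Type} [DecidableEq W] {k : ℕ} {f : Finset (Fin k × V)} {β : V → W}
    (hβ : Set.InjOn β (vim f : Set V)) : (mv β f).card = f.card :=
  Finset.card_image_of_injOn (Ker_inj_map hβ)

theorem Ker_Inj_mv {W : Type} [DecidableEq W] {k : ℕ} {f : Finset (Fin k × V)} {β : V → W}
    (hβ : Set.InjOn β (vim f : Set V)) : Inj (mv β f) ↔ Inj f := by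
  have hm : ∀ x ∈ f, x.2 ∈ (vim f : Set V) := fun x hx =>
    Finset.mem_coe.2 (Finset.mem_image_of_mem Prod.snd hx)
  constructor
  · intro h x hx y hy hxy
    have h1 := h _ (Finset.mem_image_of_mem (Prod.map id β) hx) _ (Finset.mem_image_of_mem (Prod.map id β) hy)
      (fun he => hxy (Ker_inj_map hβ (Finset.mem_coe.2 hx) (Finset.mem_coe.2 hy) he))
    exact ⟨h1.1, fun he => h1.2 (congrArg β he)⟩
  · intro h x' hx' y' hy' hxy
    obtain ⟨x, hx, rfl⟩ := Finset.mem_image.1 hx'
    obtain ⟨y, hy, rfl⟩ := Finset.mem_image.1 hy'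
    have h1 := h x hx y hy (fun he => hxy (by rw [he]))
    exact ⟨h1.1, fun he => h1.2 (hβ (hm x hx) (hm y hy) he)⟩

theorem Ker_yw_mv {W : Type} [DecidableEq W] {k : ℕ} {f : Finset (Fin k × V)} {β : V → W}
    (hβ : Set.InjOn β (vim f : Set V)) : yw (mv β f) = yw f := by
  unfold yw
  rw [Ker_card_mv hβ]
  by_cases h : Inj f
  · rw [if_pos h, if_pos ((Ker_Inj_mv hβ).2 h)]
  · rw [if_neg h, if_neg fun h' => h ((Ker_Inj_mv hβ).1 h')]

open Classical in
/-- the kernel -/
noncomputable def Ker_k {k : ℕ} (κ₀ : Finset (Fin k × Fin k) → Finset (Fin k × Fin k) → ℝ)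
    (f h : Finset (Fin k × V)) : ℝ :=
  if hβ : ∃ β : V → Fin k, Set.InjOn β ((vim f ∪ vim h : Finset V) : Set V) then
    κ₀ (mv hβ.choose f) (mv hβ.choose h) else 0

theorem Ker_eq {k : ℕ} {κ₀ : Finset (Fin k × Fin k) → Finset (Fin k × Fin k) → ℝ}
    (h0 : ∀ (τ : Equiv.Perm (Fin k)) (f h : Finset (Fin k × Fin k)), κ₀ (mv τ f) (mv τ h) = κ₀ f h)
    {f h : Finset (Fin k × V)} {β : V → Fin k} (hβ : Set.InjOn β ((vim f ∪ vim h : Finset V) : Set V)) :
    Ker_k κ₀ f h = κ₀ (mv β f) (mv β h) := by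
  have hex : ∃ β : V → Fin k, Set.InjOn β ((vim f ∪ vim h : Finset V) : Set V) := ⟨β, hβ⟩
  unfold Ker_k
  rw [dif_pos hex]
  obtain ⟨τ, hτ⟩ := Epe_main (vim f ∪ vim h) hex.choose β hex.choose_spec hβ
  have h1 : mv β f = mv τ (mv hex.choose f) := by
    rw [Ker_mv_mv]
    exact Ker_mv_congr fun v hv => (hτ v (Finset.mem_union_left _ hv)).symm
  have h2 : mv β h = mv τ (mv hex.choose h) := by
    rw [Ker_mv_mv]
    exact Ker_mv_congr fun v hv => (hτ v (Finset.mem_union_right _ hv)).symm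
  rw [h1, h2, h0]

theorem Ker_main (k s : ℕ) (hk : 0 < k) : ∃ κ : Finset (Fin k × V) → Finset (Fin k × V) → ℝ,
    (∀ (τ : Equiv.Perm V) (f h : Finset (Fin k × V)), κ (mv τ f) (mv τ h) = κ f h) ∧
    (∀ f g : Finset (Fin k × V), f.card ≤ s → g.card ≤ s → ∀ K : Finset V, K.card = k → vim f ⊆ K → vim g ⊆ K →
      ∑ h ∈ ((univ : Finset (Fin k)) ×ˢ K).powerset, κ f h * κ g h = yw (f ∪ g)) ∧
    (∀ f h : Finset (Fin k × V), s < h.card → κ f h = 0) := by
  obtain ⟨κ₀, inv0, sum0, zero0⟩ := Gra_main k s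
  refine ⟨Ker_k κ₀, ?_, ?_, ?_⟩
  · intro τ f h
    by_cases hex : ∃ β : V → Fin k, Set.InjOn β ((vim f ∪ vim h : Finset V) : Set V)
    · obtain ⟨β, hβ⟩ := hex
      have hβ' : Set.InjOn (fun v => β (τ.symm v)) ((vim (mv τ f) ∪ vim (mv τ h) : Finset V) : Set V) := by
        intro x hx y hy hxy
        rw [Ker_vim_mv, Ker_vim_mv, ← Finset.image_union, Finset.mem_coe] at hx hy
        obtain ⟨x', hx', rfl⟩ := Finset.mem_image.1 hx
        obtain ⟨y', hy', rfl⟩ := Finset.mem_image.1 hy
        simp only [Equiv.symm_apply_apply] at hxy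
        rw [hβ (Finset.mem_coe.2 hx') (Finset.mem_coe.2 hy') hxy]
      rw [Ker_eq inv0 hβ', Ker_eq inv0 hβ, Ker_mv_mv, Ker_mv_mv]
      simp only [Equiv.symm_apply_apply]
    · have hex' : ¬ ∃ β : V → Fin k, Set.InjOn β ((vim (mv τ f) ∪ vim (mv τ h) : Finset V) : Set V) := by
        rintro ⟨β, hβ⟩
        apply hex
        refine ⟨fun v => β (τ v), ?_⟩
        intro x hx y hy hxy
        rw [Ker_vim_mv, Ker_vim_mv, ← Finset.image_union] at hβ
        have h1 := hβ (Finset.mem_coe.2 (Finset.mem_image_of_mem τ (Finset.mem_coe.1 hx)))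
          (Finset.mem_coe.2 (Finset.mem_image_of_mem τ (Finset.mem_coe.1 hy))) hxy
        exact τ.injective h1
      unfold Ker_k
      rw [dif_neg hex, dif_neg hex']
  · intro f g hf hg K hK hfK hgK
    let e : K ≃ Fin k := K.equivFinOfCardEq hK
    let b : V → Fin k := fun v => if hv : v ∈ K then e ⟨v, hv⟩ else ⟨0, hk⟩
    let c : Fin k → V := fun i => (e.symm i : V)
    have hcK : ∀ i, c i ∈ K := fun i => (e.symm i).2
    have hcb : ∀ v ∈ K, c (b v) = v := fun v hv => by
      simp only [b, c, dif_pos hv, Equiv.symm_apply_apply]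
    have hbc : ∀ i, b (c i) = i := fun i => by
      simp only [b, dif_pos (hcK i)]
      exact e.apply_symm_apply i
    have hbinj : Set.InjOn b (K : Set V) := by
      intro x hx y hy hxy
      rw [← hcb x (Finset.mem_coe.1 hx), ← hcb y (Finset.mem_coe.1 hy), hxy]
    have hvim : ∀ h ∈ ((univ : Finset (Fin k)) ×ˢ K).powerset, vim h ⊆ K := by
      intro h hh v hv
      obtain ⟨i, hi⟩ := (mem_vim h v).1 hv
      exact (Finset.mem_product.1 (Finset.mem_powerset.1 hh hi)).2
    have hfh : ∀ f : Finset (Fin k × V), vim f ⊆ K → ∀ h ∈ ((univ : Finset (Fin k)) ×ˢ K).powerset,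
        Ker_k κ₀ f h = κ₀ (mv b f) (mv b h) := by
      intro f hf h hh
      refine Ker_eq inv0 (hbinj.mono ?_)
      rw [Finset.coe_subset]
      exact Finset.union_subset hf (hvim h hh)
    rw [Finset.sum_congr rfl fun h hh => by rw [hfh f hfK h hh, hfh g hgK h hh]]
    have hbij : ∑ h ∈ ((univ : Finset (Fin k)) ×ˢ K).powerset, κ₀ (mv b f) (mv b h) * κ₀ (mv b g) (mv b h) =
        ∑ h', κ₀ (mv b f) h' * κ₀ (mv b g) h' := by
      refine Finset.sum_nbij' (fun h => mv b h) (fun h' => mv c h') ?_ ?_ ?_ ?_ ?_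
      · intro h _
        exact Finset.mem_univ _
      · intro h' _
        rw [Finset.mem_powerset]
        intro x hx
        obtain ⟨y, -, rfl⟩ := Finset.mem_image.1 hx
        exact Finset.mem_product.2 ⟨Finset.mem_univ _, hcK _⟩
      · intro h hh
        rw [Ker_mv_mv]
        conv_rhs => rw [← Ker_mv_id h]
        exact Ker_mv_congr fun v hv => hcb v (hvim h hh hv)
      · intro h' _
        rw [Ker_mv_mv]
        conv_rhs => rw [← Ker_mv_id h']
        exact Ker_mv_congr fun v _ => hbc v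
      · intro h _
        rfl
    have hcf : (mv b f).card ≤ s := le_trans Finset.card_image_le hf
    have hcg : (mv b g).card ≤ s := le_trans Finset.card_image_le hg
    rw [hbij, sum0 _ _ hcf hcg, ← mv_union]
    refine Ker_yw_mv (hbinj.mono ?_)
    rw [vim_union, Finset.coe_subset]
    exact Finset.union_subset hfK hgK
  · intro f h hs
    by_cases hex : ∃ β : V → Fin k, Set.InjOn β ((vim f ∪ vim h : Finset V) : Set V)
    · obtain ⟨β, hβ⟩ := hex
      rw [Ker_eq inv0 hβ]
      apply zero0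
      rw [Ker_card_mv]
      · exact hs
      · refine hβ.mono ?_
        rw [Finset.coe_subset]
        exact Finset.subset_union_right
    · unfold Ker_k
      rw [dif_neg hex]

end Pool.Agent.H9.SI
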