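import Mathlib

/-!
Module Sqr.  A positive semidefinite square root that commutes with all symmetries.
Use the continuous functional calculus (`CFC.sqrt`, `Matrix.PosSemidef`, `Commute.cfc` ...) or uniqueness of the positive semidefinite square root, or: `κ` is a polynomial in `Y` (interpolate the square root on the eigenvalues: spectral theorem), and a polynomial in `Y` commutes with the permutation matrices of the symmetries of `Y`.
-/

set_option autoImplicit false
set_option linter.unusedSectionVars false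

open Finset

namespace Pool.Agent.H9.SI

open scoped MatrixOrder in
theorem Sqr_aux {I : Type} [Fintype I] [DecidableEq I] (Y : Matrix I I ℝ) (hY : Y.PosSemidef) :
    ∃ κ : Matrix I I ℝ, κ.PosSemidef ∧ κ * κ = Y ∧
      ∀ σ : Equiv.Perm I, Y.submatrix σ σ = Y → κ.submatrix σ σ = κ := by
  have h0 : (0 : Matrix I I ℝ) ≤ Y := hY.nonneg
  refine ⟨CFC.sqrt Y, Matrix.nonneg_iff_posSemidef.1 (CFC.sqrt_nonneg Y), CFC.sqrt_mul_sqrt_self Y h0, fun σ hσ => ?_⟩
  have h1 : (CFC.sqrt Y).submatrix σ σ * (CFC.sqrt Y).submatrix σ σ = Y := by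
    rw [Matrix.submatrix_mul_equiv, CFC.sqrt_mul_sqrt_self Y h0, hσ]
  have h2 : ((CFC.sqrt Y).submatrix σ σ).PosSemidef := (Matrix.nonneg_iff_posSemidef.1 (CFC.sqrt_nonneg Y)).submatrix σ
  exact (CFC.sqrt_unique h1 h2.nonneg).symm

theorem Sqr_main {I : Type} [Fintype I] [DecidableEq I] (Y : Matrix I I ℝ) (hY : Y.PosSemidef) :
    ∃ κ : Matrix I I ℝ, (∀ i j, κ i j = κ j i) ∧ (∀ i j, ∑ l, κ i l * κ j l = Y i j) ∧
      ∀ σ : Equiv.Perm I, (∀ i j, Y (σ i) (σ j) = Y i j) → ∀ i j, κ (σ i) (σ j) = κ i j := by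
  obtain ⟨κ, hκ, hsq, hσ⟩ := Sqr_aux Y hY
  have hsym : ∀ i j, κ i j = κ j i := by
    intro i j
    have h := hκ.isHermitian.apply i j
    simpa using h.symm
  refine ⟨κ, hsym, fun i j => ?_, fun σ hs i j => ?_⟩
  · rw [← hsq, Matrix.mul_apply]
    refine Finset.sum_congr rfl fun l _ => ?_
    rw [hsym j l]
  · have h1 : Y.submatrix σ σ = Y := by
      ext a b
      exact hs a b
    have h2 := congrFun (congrFun (hσ σ h1) i) j
    exact h2

end Pool.Agent.H9.SI
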