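import Mathlib

/-!
# Sum-of-squares refutations of the `k`-clique formula of a graph by arbitrary functions

The variable `(i, v)` says that the vertex `v` is the `i`-th vertex of the clique.
-/

set_option autoImplicit false

open Finset

namespace Pool.Agent.H9.SI

/-- `F` chooses a vertex for some of the indices `i`, such that the vertices chosen for different indices are different and
adjacent. -/
def IsPartialClique {k N : ℕ} (G : SimpleGraph (Fin N)) (F : Fin k → Option (Fin N)) : Prop :=
  ∀ (i j : Fin k) (u v : Fin N), i ≠ j → F i = some u → F j = some v → G.Adj u v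

/-- The real function `g` is `0` at `F` unless `F` chooses all vertices in `P`, and `g F` depends only on what `F` chooses
among the vertices in `P` and `W`.  (For example, `g` may be the product of one variable for each vertex in `P` and of any
number of negated variables of vertices in `W`.) -/
def Sees {k N : ℕ} (P W : Finset (Fin N)) (g : (Fin k → Option (Fin N)) → ℝ) : Prop :=
  (∀ F : Fin k → Option (Fin N), (∃ v ∈ P, ∀ i : Fin k, F i ≠ some v) → g F = 0) ∧
  ∀ F F' : Fin k → Option (Fin N), (∀ (i : Fin k), ∀ v ∈ P ∪ W, F i = some v ↔ F' i = some v) → g F = g F'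

/-- A sum-of-squares refutation of the `k`-clique formula of `G` in the span of the functions `g 0, ..., g (S - 1)`: there are
linear combinations `q i` and `a j` of these functions, with real coefficients, such that
`∑ i, q i ^ 2 + ∑ j, a j * (∑ v, x (j, v) - 1) = -1` at all partial cliques `F` of `G` (that is, the identity holds modulo all
multiples of `x (j, v) ^ 2 - x (j, v)`, of `x (j, v) * x (j, w)` for `v ≠ w`, and of `x (i, v) * x (j, w)` for `i ≠ j` and
`v`, `w` equal or non-adjacent, which are free of charge). -/
def SosRefutation {k N S : ℕ} (G : SimpleGraph (Fin N)) (g : Fin S → (Fin k → Option (Fin N)) → ℝ) : Prop :=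
  ∃ (m : ℕ) (q : Fin m → Fin S → ℝ) (a : Fin k → Fin S → ℝ),
    ∀ F : Fin k → Option (Fin N), IsPartialClique G F →
      ∑ i, (∑ t, q i t * g t F) ^ 2 +
        ∑ j, (∑ t, a j t * g t F) * ((if (F j).isSome then 1 else 0) - 1) = -1

end Pool.Agent.H9.SI
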