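import Mathlib

/-!
# Sum-of-squares refutations of the `k`-clique formula of a graph

The variable `(i, v)` says that the vertex `v` is the `i`-th vertex of the clique.
-/

set_option autoImplicit false

open Finset

namespace Pool.Agent.H9.SI

/-- `F` chooses, for some of the indices `i`, a vertex; the vertices chosen for different indices are different and
adjacent. -/
def PartialClique {k N : ℕ} (G : SimpleGraph (Fin N)) (F : Fin k → Option (Fin N)) : Prop :=
  ∀ (i j : Fin k) (u v : Fin N), i ≠ j → F i = some u → F j = some v → G.Adj u v

open Classical in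
/-- The value at `F` of the monomial `t = (P, Q)`, the product of the variables in `P` and of the negated variables in `Q`:
it is `1` if `F` chooses `v` for `i` for all `(i, v) ∈ P` and for no `(i, v) ∈ Q`, and `0` otherwise. -/
noncomputable def ival {k N : ℕ} (t : Finset (Fin k × Fin N) × Finset (Fin k × Fin N)) (F : Fin k → Option (Fin N)) : ℝ :=
  if (∀ x ∈ t.1, F x.1 = some x.2) ∧ (∀ x ∈ t.2, F x.1 ≠ some x.2) then 1 else 0

/-- A sum-of-squares refutation, with the monomials in `M`, of the `k`-clique formula of `G`: there are linear combinations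
`q i` and `a j` of the monomials in `M`, with real coefficients, such that
`∑ i, q i ^ 2 + ∑ j, a j * (∑ v, x (j, v) - 1) = -1` at all partial cliques `F` (that is, the identity holds modulo all
multiples of `x (j, v) ^ 2 - x (j, v)`, of `x (j, v) * x (j, w)` for `v ≠ w`, and of `x (i, v) * x (j, w)` for `i ≠ j` and
`v`, `w` equal or non-adjacent, which are free of charge). -/
def SumOfSquaresFormula {k N : ℕ} (G : SimpleGraph (Fin N))
    (M : Finset (Finset (Fin k × Fin N) × Finset (Fin k × Fin N))) : Prop :=
  ∃ (m : ℕ) (q : Fin m → Finset (Fin k × Fin N) × Finset (Fin k × Fin N) → ℝ)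
    (a : Fin k → Finset (Fin k × Fin N) × Finset (Fin k × Fin N) → ℝ),
    ∀ F : Fin k → Option (Fin N), PartialClique G F →
      ∑ i, (∑ t ∈ M, q i t * ival t F) ^ 2 +
        ∑ j, (∑ t ∈ M, a j t * ival t F) * ((if (F j).isSome then 1 else 0) - 1) = -1

end Pool.Agent.H9.SI
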