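import Pool.Agent.H9.SI.Stmt

/-!
Module Upp.  A refutation with few monomials that have many negated variables.
Classes: `c v = v mod B` (at most `N / B + 1` vertices each: `v ↦ v / B` is injective on a class).  For `b : Fin k → Option (Fin B)` let `t_b = (∅, {(i, v) | b i = some (c v)})`; `ival t_b F = ∏ i, T i (b i)` with `T i none = 1`,
`T i (some β) = if F i is a vertex of class β then 0 else 1`.  `M` = the image of `b ↦ t_b`.
`Z i := (if F i = none then 1 else 0) = ∑ β, T i (some β) - (B - 1)`, `Y i := 1 - Z i = ∑ o, y o * T i o` with `y (some β) = -1`, `y none = B`.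
`a j := ∏ i < j, Y i = ∑ b, (∏ i, α j i (b i)) * ival t_b F` with `α j i o = if i < j then y o else (if o = none then 1 else 0)` (`Finset.prod_univ_sum`, `Fintype.piFinset_univ`); coefficient of `t ∈ M`: the sum over the `b` with `t_b = t` (`Finset.sum_fiberwise`).
`m = 0` squares, and `∑ j, a j * ((if (F j).isSome then 1 else 0) - 1) = - ∑ j, Z j * ∏ i < j, (1 - Z i) = ∏ i, (1 - Z i) - 1 = -1` (`Finset.prod_one_sub_ordered`), since some `F j` is `none`: otherwise the values of `F` are a clique with `k` vertices.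
-/

set_option autoImplicit false
set_option linter.unusedSectionVars false

open Finset

namespace Pool.Agent.H9.SI

/-- the class of a vertex -/
def Upp_c {N : ℕ} (B : ℕ) (hB : 1 ≤ B) (v : Fin N) : Fin B := ⟨v.1 % B, Nat.mod_lt _ (by omega)⟩

/-- the monomial of a choice of classes -/
def Upp_tb {k N : ℕ} (B : ℕ) (hB : 1 ≤ B) (b : Fin k → Option (Fin B)) :
    Finset (Fin k × Fin N) × Finset (Fin k × Fin N) :=
  (∅, univ.filter (fun x : Fin k × Fin N => b x.1 = some (Upp_c B hB x.2)))

open Classical in
/-- the factor of the value of the monomial at an index -/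
noncomputable def Upp_T {k N : ℕ} (B : ℕ) (hB : 1 ≤ B) (F : Fin k → Option (Fin N)) (i : Fin k) (o : Option (Fin B)) : ℝ :=
  if (∀ v, F i = some v → o ≠ some (Upp_c B hB v)) then 1 else 0

/-- the coefficients of a factor -/
noncomputable def Upp_y (B : ℕ) : Option (Fin B) → ℝ
  | none => B
  | some _ => -1

theorem Upp_class {N : ℕ} (B : ℕ) (hB : 1 ≤ B) (o : Option (Fin B)) :
    ((univ : Finset (Fin N)).filter (fun v => o = some (Upp_c B hB v))).card ≤ N / B + 1 := by
  have h : ((univ : Finset (Fin N)).filter (fun v => o = some (Upp_c B hB v))).card ≤ (range (N / B + 1)).card := by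
    refine card_le_card_of_injOn (fun v => v.1 / B) ?_ ?_
    · intro v _
      have h1 : v.1 / B ≤ N / B := Nat.div_le_div_right v.2.le
      simpa using Nat.lt_succ_of_le h1
    · intro v hv w hw hvw
      have hv' : o = some (Upp_c B hB v) := by simpa using hv
      have hw' : o = some (Upp_c B hB w) := by simpa using hw
      have h1 : Upp_c B hB v = Upp_c B hB w := Option.some.inj (hv'.symm.trans hw')
      have h2 : v.1 % B = w.1 % B := congrArg Fin.val h1
      have h3 : v.1 / B = w.1 / B := hvw
      apply Fin.ext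
      rw [← Nat.div_add_mod v.1 B, ← Nat.div_add_mod w.1 B, h2, h3]
  simpa using h

theorem Upp_supp {k N : ℕ} (B : ℕ) (hB : 1 ≤ B) (b : Fin k → Option (Fin B)) :
    (((Upp_tb (N := N) B hB b).2).image Prod.snd).card ≤ k * (N / B + 1) := by
  have h1 : ((Upp_tb (N := N) B hB b).2).image Prod.snd ⊆
      (univ : Finset (Fin k)).biUnion (fun i => (univ : Finset (Fin N)).filter (fun v => b i = some (Upp_c B hB v))) := by
    intro v hv
    simp only [Upp_tb, mem_image, mem_filter, mem_univ, true_and] at hv
    obtain ⟨x, hx, rfl⟩ := hv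
    simp only [mem_biUnion, mem_univ, mem_filter, true_and]
    exact ⟨x.1, hx⟩
  refine (card_le_card h1).trans ?_
  refine (card_biUnion_le_card_mul _ _ (N / B + 1) fun i _ => Upp_class B hB (b i)).trans ?_
  simp

theorem Upp_ival {k N : ℕ} (B : ℕ) (hB : 1 ≤ B) (b : Fin k → Option (Fin B)) (F : Fin k → Option (Fin N)) :
    ival (Upp_tb B hB b) F = ∏ i, Upp_T B hB F i (b i) := by
  classical
  unfold ival Upp_T
  rw [Finset.prod_ite_zero]
  simp only [Upp_tb, notMem_empty, false_imp_iff, implies_true, true_and, mem_filter, mem_univ, forall_const,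
    prod_const_one]
  congr 1
  apply propext
  constructor
  · intro h i v hv hb
    exact h (i, v) hb hv
  · intro h x hx hF
    exact h x.1 x.2 hF hx

theorem Upp_Y {k N : ℕ} (B : ℕ) (hB : 1 ≤ B) (F : Fin k → Option (Fin N)) (i : Fin k) :
    ∑ o, Upp_y B o * Upp_T B hB F i o = if (F i).isSome then 1 else 0 := by
  classical
  rw [Fintype.sum_option]
  rcases hF : F i with _ | v
  · simp [Upp_y, Upp_T, hF]
  · have h : ∀ β : Fin B, Upp_y B (some β) * Upp_T B hB F i (some β) =
        (if β = Upp_c B hB v then 1 else 0) - 1 := by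
      intro β
      by_cases hβ : β = Upp_c B hB v
      · simp [Upp_y, Upp_T, hF, hβ]
      · simp [Upp_y, Upp_T, hF, hβ]
    rw [sum_congr rfl fun β _ => h β, sum_sub_distrib]
    simp [Upp_y, Upp_T]

/-- the coefficient of a choice of classes in the product of the first factors -/
noncomputable def Upp_al {k : ℕ} (B : ℕ) (j i : Fin k) (o : Option (Fin B)) : ℝ :=
  if i < j then Upp_y B o else (if o = none then 1 else 0)

theorem Upp_prod {k N : ℕ} (B : ℕ) (hB : 1 ≤ B) (F : Fin k → Option (Fin N)) (j : Fin k) :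
    ∑ b : Fin k → Option (Fin B), (∏ i, Upp_al B j i (b i)) * ival (Upp_tb B hB b) F =
      ∏ i, (if i < j then (if (F i).isSome then 1 else 0) else 1) := by
  classical
  have h1 : ∀ i : Fin k, ∑ o, Upp_al B j i o * Upp_T B hB F i o =
      (if i < j then (if (F i).isSome then 1 else 0) else 1) := by
    intro i
    by_cases hij : i < j
    · simp only [Upp_al, hij, if_true]
      exact Upp_Y B hB F i
    · simp only [Upp_al, hij, if_false, ite_mul, one_mul, zero_mul, sum_ite_eq', mem_univ, if_true]
      simp [Upp_T]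
  rw [← prod_congr rfl fun i _ => h1 i, Finset.prod_univ_sum, Fintype.piFinset_univ]
  refine sum_congr rfl fun b _ => ?_
  rw [Upp_ival, ← prod_mul_distrib]

theorem Upp_tele {k : ℕ} (z : Fin k → ℝ) (h : ∃ i, z i = 0) :
    ∑ j, (∏ i, (if i < j then z i else 1)) * (z j - 1) = -1 := by
  have h1 := Finset.prod_one_sub_ordered (univ : Finset (Fin k)) (fun i => 1 - z i)
  simp only [sub_sub_cancel] at h1
  obtain ⟨i, hi⟩ := h
  rw [prod_eq_zero (mem_univ i) hi] at h1
  have h2 : ∀ j : Fin k, (∏ i, (if i < j then z i else 1)) * (z j - 1) =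
      - ((1 - z j) * ∏ i with i < j, z i) := by
    intro j
    rw [prod_filter]
    ring
  rw [sum_congr rfl fun j _ => h2 j, sum_neg_distrib]
  linarith

theorem Upp_none {k N : ℕ} (G : SimpleGraph (Fin N)) (hG : G.CliqueFree k) (F : Fin k → Option (Fin N))
    (hF : PartialClique G F) : ∃ i, F i = none := by
  classical
  by_contra hcon
  push Not at hcon
  have h1 : ∀ i, ∃ v, F i = some v := fun i => Option.ne_none_iff_exists'.mp (hcon i)
  choose f hf using h1
  have h2 : ∀ i j, i ≠ j → G.Adj (f i) (f j) := fun i j hij => hF i j (f i) (f j) hij (hf i) (hf j)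
  have hinj : Function.Injective f := by
    intro i j hij
    by_contra hne
    exact (h2 i j hne).ne hij
  refine hG (univ.image f) ⟨?_, ?_⟩
  · intro x hx y hy hxy
    simp only [coe_image, coe_univ, Set.image_univ, Set.mem_range] at hx hy
    obtain ⟨i, rfl⟩ := hx
    obtain ⟨j, rfl⟩ := hy
    exact h2 i j fun h => hxy (congrArg f h)
  · rw [card_image_of_injective _ hinj]
    simp

theorem Upp_main {k N : ℕ} (G : SimpleGraph (Fin N)) (hG : G.CliqueFree k) (B : ℕ) (hB : 1 ≤ B) :
    ∃ M : Finset (Finset (Fin k × Fin N) × Finset (Fin k × Fin N)), M.card ≤ (B + 1) ^ k ∧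
      (∀ t ∈ M, t.1 = ∅ ∧ (t.2.image Prod.snd).card ≤ k * (N / B + 1)) ∧ SumOfSquaresFormula G M := by
  classical
  refine ⟨(univ : Finset (Fin k → Option (Fin B))).image (Upp_tb B hB), ?_, ?_, ?_⟩
  · refine card_image_le.trans ?_
    simp [Finset.card_univ]
  · intro t ht
    obtain ⟨b, _, rfl⟩ := mem_image.mp ht
    exact ⟨rfl, Upp_supp B hB b⟩
  · refine ⟨0, fun _ _ => 0, fun j t => ∑ b with Upp_tb B hB b = t, ∏ i, Upp_al B j i (b i), ?_⟩
    intro F hF
    have h1 : ∀ j : Fin k, ∑ t ∈ (univ : Finset (Fin k → Option (Fin B))).image (Upp_tb B hB),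
        (∑ b with Upp_tb B hB b = t, ∏ i, Upp_al B j i (b i)) * ival t F =
          ∏ i, (if i < j then (if (F i).isSome then 1 else 0) else 1) := by
      intro j
      rw [← Upp_prod B hB F j, ← Finset.sum_fiberwise_of_maps_to
        (t := (univ : Finset (Fin k → Option (Fin B))).image (Upp_tb B hB))
        (g := Upp_tb B hB) (fun b _ => mem_image_of_mem _ (mem_univ b))]
      refine sum_congr rfl fun t _ => ?_
      rw [sum_mul]
      refine sum_congr rfl fun b hb => ?_
      rw [(mem_filter.mp hb).2]
    obtain ⟨i, hi⟩ := Upp_none G hG F hF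
    have h2 := Upp_tele (fun i => if (F i).isSome then (1 : ℝ) else 0) ⟨i, by simp [hi]⟩
    simp only [h1, univ_eq_empty, sum_empty, zero_add]
    exact h2

end Pool.Agent.H9.SI
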