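import Pool.Agent.H9.SI.Upp
import Pool.Agent.H9.SI.Stm

/-!
Module Upq.  The upper bound in terms of functions.
-/

set_option autoImplicit false
set_option linter.unusedSectionVars false

open Finset

namespace Pool.Agent.H9.SI

theorem Upq_sees {k N : ℕ} (t : Finset (Fin k × Fin N) × Finset (Fin k × Fin N)) (ht : t.1 = ∅) :
    Sees ∅ (t.2.image Prod.snd) (ival t) := by
  refine ⟨fun F hF => ?_, fun F F' h => ?_⟩
  · obtain ⟨v, hv, _⟩ := hF
    exact absurd hv (notMem_empty v)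
  · unfold ival
    rw [ht]
    have h1 : (∀ x ∈ t.2, F x.1 ≠ some x.2) ↔ (∀ x ∈ t.2, F' x.1 ≠ some x.2) := by
      constructor
      · intro h2 x hx h3
        exact h2 x hx ((h x.1 x.2 (mem_union_right _ (mem_image_of_mem _ hx))).2 h3)
      · intro h2 x hx h3
        exact h2 x hx ((h x.1 x.2 (mem_union_right _ (mem_image_of_mem _ hx))).1 h3)
    have h0 : ∀ F : Fin k → Option (Fin N), ∀ x ∈ (∅ : Finset (Fin k × Fin N)), F x.1 = some x.2 :=
      fun F x hx => absurd hx (notMem_empty x)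
    by_cases h2 : ∀ x ∈ t.2, F x.1 ≠ some x.2
    · rw [if_pos ⟨h0 F, h2⟩, if_pos ⟨h0 F', h1.1 h2⟩]
    · rw [if_neg (fun h3 => h2 h3.2), if_neg (fun h3 => h2 (h1.2 h3.2))]

theorem Upq_main {k N : ℕ} (G : SimpleGraph (Fin N)) (hG : G.CliqueFree k) (B : ℕ) (hB : 1 ≤ B) :
    ∃ (R : ℕ) (W : Fin R → Finset (Fin N)) (g : Fin R → (Fin k → Option (Fin N)) → ℝ), SosRefutation G g ∧
      (∀ t, Sees ∅ (W t) (g t) ∧ (W t).card ≤ k * (N / B + 1)) ∧ R ≤ (B + 1) ^ k := by
  classical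
  obtain ⟨M, h1, h2, m, q, a, h3⟩ := Upp_main G hG B hB
  refine ⟨M.card, fun t => ((M.equivFin.symm t).1.2).image Prod.snd, fun t => ival (M.equivFin.symm t).1, ?_,
    fun t => ⟨Upq_sees _ (h2 _ (M.equivFin.symm t).2).1, (h2 _ (M.equivFin.symm t).2).2⟩, h1⟩
  refine ⟨m, fun i t => q i (M.equivFin.symm t).1, fun j t => a j (M.equivFin.symm t).1, fun F hF => ?_⟩
  have h4 : ∀ f : Finset (Fin k × Fin N) × Finset (Fin k × Fin N) → ℝ,
      ∑ t : Fin M.card, f (M.equivFin.symm t).1 = ∑ t ∈ M, f t := by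
    intro f
    rw [← Finset.sum_coe_sort M f]
    exact Equiv.sum_comp M.equivFin.symm (fun t : M => f t.1)
  have h5 : ∀ i, ∑ t : Fin M.card, q i (M.equivFin.symm t).1 * ival (M.equivFin.symm t).1 F =
      ∑ t ∈ M, q i t * ival t F := fun i => h4 (fun t => q i t * ival t F)
  have h6 : ∀ j, ∑ t : Fin M.card, a j (M.equivFin.symm t).1 * ival (M.equivFin.symm t).1 F =
      ∑ t ∈ M, a j t * ival t F := fun j => h4 (fun t => a j t * ival t F)
  simp only [h5, h6]
  exact h3 F hF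

end Pool.Agent.H9.SI
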